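import Pool.Agent.PSS.StmtsS0

/-!
# Squad PSS, row RFO
-/

set_option autoImplicit false

open scoped BigOperators

noncomputable section

namespace Pool.Agent.PSS.S0.H41

open Pool.Agent.PFC (tw IsTv)
open Pool.Agent.PFD.D2b (FrR)

theorem rfo : RfoStmt := by
  intro R V A Ω _ _ _ _ _ _ _ θ α lam b d _ D
  classical
  -- the bijection
  let F : Quotient (ROrb V Ω) × V → Ω := fun p => ((1, θ⁻¹ p.2⁻¹) : V × V) • p.1.out
  have hF : ∀ κ v, F (κ, v) = ((1, θ⁻¹ v⁻¹) : V × V) • κ.out := fun _ _ => rfl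
  have hmk : ∀ κ v, Quotient.mk (ROrb V Ω) (F (κ, v)) = κ := by
    intro κ v
    have h1 : Quotient.mk (ROrb V Ω) κ.out = Quotient.mk (ROrb V Ω) (F (κ, v)) :=
      Quotient.sound ⟨θ⁻¹ v⁻¹, rfl⟩
    rw [← h1]
    exact Quotient.out_eq κ
  have hFb : Function.Bijective F := by
    constructor
    · rintro ⟨κ, v⟩ ⟨κ', w⟩ h
      have e : κ = κ' := by rw [← hmk κ v, ← hmk κ' w, h]
      subst e
      rw [hF, hF] at h
      have h2 : ((1, θ⁻¹ w * θ⁻¹ v⁻¹) : V × V) • κ.out = κ.out := by
        have h3 := congrArg (fun t => ((1, θ⁻¹ w) : V × V) • t) h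
        simp only [smul_smul] at h3
        have e1 : ((1, θ⁻¹ w) : V × V) * (1, θ⁻¹ w⁻¹) = 1 := by
          ext
          · simp
          · simp
        rw [e1, one_smul] at h3
        rw [← h3]
        congr 1
        simp
      have h4 := D.free _ _ h2
      rw [← map_mul] at h4
      have h5 : w * v⁻¹ = 1 := by
        have := congrArg θ h4
        rw [map_one, MulAut.apply_inv_self] at this
        exact this
      rw [mul_inv_eq_one] at h5
      rw [h5]
    · intro ω
      obtain ⟨u, hu⟩ : ∃ u : V, ((1, u) : V × V) • (Quotient.mk (ROrb V Ω) ω).out = ω :=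
        Quotient.exact (s := ROrb V Ω) (Quotient.out_eq (Quotient.mk (ROrb V Ω) ω))
      refine ⟨(Quotient.mk (ROrb V Ω) ω, (θ u)⁻¹), ?_⟩
      rw [hF, inv_inv, MulAut.inv_apply_self, hu]
  have hb : ∀ κ v, b (F (κ, v)) = b κ.out * α v := by
    intro κ v
    rw [hF, D.eb]
    simp only [map_one, one_mul]
    rw [MulAut.apply_inv_self, inv_inv]
  have hd : ∀ κ v, d (F (κ, v)) = α v⁻¹ * d κ.out := by
    intro κ v
    rw [hF, D.ed]
    simp only [inv_one, map_one, mul_one]
    rw [MulAut.apply_inv_self]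
  have hfr2 : ∀ a, ∑ ω, lam (a * b ω) • d ω = a := by
    intro a
    set z := ∑ ω, lam (a * b ω) • d ω - a with hz
    have h1 : ∀ a', lam (z * a') = 0 := by
      intro a'
      have h3 : lam (a * a') = ∑ ω, lam (a * b ω) * lam (d ω * a') := by
        have h4 := congrArg (fun t => lam (a * t)) (D.fr a')
        simp only [Finset.mul_sum, map_sum, mul_smul_comm, map_smul, smul_eq_mul] at h4
        rw [← h4]
        exact Finset.sum_congr rfl fun ω _ => mul_comm _ _
      rw [hz, sub_mul, map_sub, Finset.sum_mul, map_sum, h3, sub_eq_zero]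
      refine Finset.sum_congr rfl fun ω _ => ?_
      rw [smul_mul_assoc, map_smul, smul_eq_mul]
    have h2 := D.fr z
    rw [← sub_eq_zero, ← hz, ← h2]
    refine Finset.sum_eq_zero fun ω _ => ?_
    rw [D.sym, h1, zero_smul]
  refine ⟨fun κ => b κ.out, fun κ => d κ.out, ⟨D.sym, ?_, ?_⟩, ?_⟩
  · intro a
    have h1 := D.fr a
    rw [← (Equiv.ofBijective F hFb).sum_comp, Fintype.sum_prod_type] at h1
    refine Eq.trans ?_ h1
    refine Finset.sum_congr rfl fun κ _ => Finset.sum_congr rfl fun v _ => ?_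
    change _ = lam (d (F (κ, v)) * a) • b (F (κ, v))
    rw [hb, hd]
  · intro a
    have h1 := hfr2 a
    rw [← (Equiv.ofBijective F hFb).sum_comp, Fintype.sum_prod_type] at h1
    refine Eq.trans ?_ h1
    refine Finset.sum_congr rfl fun κ _ => Finset.sum_congr rfl fun v _ => ?_
    change _ = lam (a * b (F (κ, v))) • d (F (κ, v))
    rw [hb, hd]
  · intro a _ g hg
    refine Finset.sum_congr rfl fun κ _ => ?_
    rw [← hg, Quotient.out_eq]

end Pool.Agent.PSS.S0.H41
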