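import Pool.Agent.PSS.StmtsS3

/-!
# Squad PSS, row QBK
-/

set_option autoImplicit false

open scoped BigOperators TensorProduct PowerSeries

noncomputable section

namespace Pool.Agent.PSS.S3.H41

open Pool.Agent.PFC (tw IsTv)
open Pool.Agent.PFD.D2b (FrR)
open Pool.Agent.PSS.S0

theorem q_smul {F A As : Type} [Field F] [Ring A] [Algebra F A] [Ring As] [Algebra F⟦X⟧ As]
    {q : As →+* A}
    (hsc : ∀ r : F⟦X⟧, q (algebraMap F⟦X⟧ As r) = algebraMap F A (PowerSeries.constantCoeff r))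
    (r : F⟦X⟧) (a : As) : q (r • a) = PowerSeries.constantCoeff r • q a := by
  rw [Algebra.smul_def, map_mul, hsc, ← Algebra.smul_def]

theorem qbk : QbkStmt := by
  intro F W A As _ _ _ _ _ _ ω γ q hsc hqw P
  have hq : ∀ (h : W) (a : As), q (cw F⟦X⟧ γ h a) = cw F ω h (q a) := by
    intro h a
    change q (γ h * (a * γ h⁻¹)) = ω h * (q a * ω h⁻¹)
    rw [map_mul, map_mul, hqw, hqw]
  have h1 : ∀ (P : Subgroup W), ∀ a ∈ FxR (cw F⟦X⟧ γ) P, q a ∈ FxR (cw F ω) P := by
    intro P a ha h hh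
    rw [← hq, ha h hh]
  refine ⟨h1 P, ?_⟩
  intro a ha
  induction ha using Submodule.span_induction with
  | mem x hx =>
    obtain ⟨P', S, m, hP', hS, hm, rfl⟩ := hx
    refine Submodule.subset_span ⟨P', S, q m, hP', hS, h1 P' m hm, ?_⟩
    rw [map_sum]
    exact Finset.sum_congr rfl fun x _ => hq x m
  | zero =>
    rw [map_zero]
    exact Submodule.zero_mem _
  | add x y _ _ hx hy =>
    rw [map_add]
    exact Submodule.add_mem _ hx hy
  | smul r x _ hx =>
    rw [q_smul hsc]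
    exact Submodule.smul_mem _ _ hx

end Pool.Agent.PSS.S3.H41
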