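import Pool.Agent.PSS.StmtsS3
import Pool.Agent.Helper41_PSS.QBK

/-!
# Squad PSS, row PRQ
-/

set_option autoImplicit false

open scoped BigOperators TensorProduct PowerSeries

noncomputable section

namespace Pool.Agent.PSS.S3.H41

open Pool.Agent.PFC (tw IsTv)
open Pool.Agent.PFD.D2b (FrR)
open Pool.Agent.PSS.S0

section bq

variable {R V A B : Type} [CommRing R] [CommGroup V] [Ring A] [Algebra R A] [Ring B] [Algebra R B]
  {α : V →* A} {Q : Subgroup V} {αB : V →* B} {β : A → B}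

theorem bq_zero (h : IsBQ R α Q αB β) : β 0 = 0 := by
  have h1 := h.smul 0 0 (Submodule.zero_mem _)
  rwa [zero_smul, zero_smul] at h1

theorem bq_sub (h : IsBQ R α Q αB β) {a b : A} (ha : a ∈ FxR (cw R α) Q)
    (hb : b ∈ FxR (cw R α) Q) : β (a - b) = β a - β b := by
  have h1 := h.add a ha ((-1 : R) • b) (Submodule.smul_mem _ _ hb)
  rw [h.smul _ b hb, neg_one_smul, neg_one_smul, ← sub_eq_add_neg, ← sub_eq_add_neg] at h1
  exact h1

theorem bq_eq (h : IsBQ R α Q αB β) {a b : A} (ha : a ∈ FxR (cw R α) Q)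
    (hb : b ∈ FxR (cw R α) Q) : β a = β b ↔ a - b ∈ BKR (cw R α) Q := by
  rw [← h.ker _ (Submodule.sub_mem _ ha hb), bq_sub h ha hb, sub_eq_zero]

theorem mem_fx {a : A} : a ∈ FxR (cw R α) Q ↔ ∀ v ∈ Q, α v * (a * α v⁻¹) = a := Iff.rfl

theorem fx_of_comm {a : A} (h : ∀ v, α v * a = a * α v) : a ∈ FxR (cw R α) Q := by
  rw [mem_fx]
  intro v _
  rw [← mul_assoc, h, mul_assoc, ← map_mul, mul_inv_cancel, map_one, mul_one]

theorem fx_mul {a b : A} (ha : a ∈ FxR (cw R α) Q) (hb : b ∈ FxR (cw R α) Q) :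
    a * b ∈ FxR (cw R α) Q := by
  rw [mem_fx] at *
  intro v hv
  have h1 := ha v hv
  have h2 := hb v hv
  calc α v * (a * b * α v⁻¹) = (α v * (a * α v⁻¹)) * (α v * (b * α v⁻¹)) := by
        have e : α v⁻¹ * α v = 1 := by rw [← map_mul, inv_mul_cancel, map_one]
        calc α v * (a * b * α v⁻¹) = α v * a * 1 * b * α v⁻¹ := by
              simp only [mul_assoc, one_mul]
          _ = _ := by rw [← e]; simp only [mul_assoc]
    _ = a * b := by rw [h1, h2]

theorem fx_one : (1 : A) ∈ FxR (cw R α) Q := fx_of_comm fun v => by rw [mul_one, one_mul]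

theorem fx_al (u : V) : α u ∈ FxR (cw R α) Q :=
  fx_of_comm fun v => by rw [← map_mul, ← map_mul, mul_comm]

end bq

section red

variable {F W A As : Type} [Field F] [CommGroup W] [Ring A] [Algebra F A] [Ring As]
  [Algebra F⟦X⟧ As] {q : As →+* A}

/-- the reduction of a form -/
def c0 (hsc : ∀ r : F⟦X⟧, q (algebraMap F⟦X⟧ As r) = algebraMap F A (PowerSeries.constantCoeff r))
    (hsurj : Function.Surjective q)
    (hker : ∀ a, q a = 0 → ∃ a', a = (PowerSeries.X : F⟦X⟧) • a') (c : As →ₗ[F⟦X⟧] F⟦X⟧) :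
    {c0 : A →ₗ[F] F // ∀ a, c0 (q a) = PowerSeries.constantCoeff (c a)} := by
  have hs : ∀ z, q (Function.surjInv hsurj z) = z := Function.surjInv_eq hsurj
  have hwd : ∀ a a', q a = q a' →
      PowerSeries.constantCoeff (c a) = PowerSeries.constantCoeff (c a') := by
    intro a a' h
    obtain ⟨z, hz⟩ := hker (a - a') (by rw [map_sub, h, sub_self])
    rw [← sub_eq_zero, ← map_sub, ← map_sub, hz, map_smul, smul_eq_mul, map_mul,
      PowerSeries.constantCoeff_X, zero_mul]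
  refine ⟨
    { toFun := fun x => PowerSeries.constantCoeff (c (Function.surjInv hsurj x))
      map_add' := ?_
      map_smul' := ?_ }, ?_⟩
  · intro x y
    rw [← map_add, ← map_add]
    exact hwd _ _ (by rw [map_add, hs, hs, hs])
  · intro r x
    rw [RingHom.id_apply, smul_eq_mul]
    have e : r * PowerSeries.constantCoeff (c (Function.surjInv hsurj x)) =
        PowerSeries.constantCoeff (c (PowerSeries.C r • Function.surjInv hsurj x)) := by
      rw [map_smul, smul_eq_mul, map_mul, PowerSeries.constantCoeff_C]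
    rw [e]
    exact hwd _ _ (by rw [q_smul hsc, hs, hs, PowerSeries.constantCoeff_C])
  · intro a
    exact hwd _ _ (hs _)

end red

section coset

open Classical in
/-- representatives of the right cosets of `E1` -/
theorem exists_T {E : Type} [Group E] [Finite E] (E1 : Subgroup E) :
    ∃ T : Finset E, T.card = E1.index ∧ ∀ e : E, ∃! t, t ∈ T ∧ t * e⁻¹ ∈ E1 := by
  have : Fintype E := Fintype.ofFinite E
  have : Fintype (Quotient (QuotientGroup.rightRel E1)) := Fintype.ofFinite _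
  refine ⟨Finset.univ.image (fun κ : Quotient (QuotientGroup.rightRel E1) => κ.out), ?_, ?_⟩
  · rw [Finset.card_image_of_injective]
    · rw [Finset.card_univ, ← Nat.card_eq_fintype_card]
      exact Nat.card_congr (QuotientGroup.quotientRightRelEquivQuotientLeftRel E1)
    · intro a b h
      rw [← Quotient.out_eq a, ← Quotient.out_eq b]
      exact congrArg _ h
  · intro e
    have h1 : ∀ a b : E, (Quotient.mk (QuotientGroup.rightRel E1) a =
        Quotient.mk (QuotientGroup.rightRel E1) b) ↔ b * a⁻¹ ∈ E1 := by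
      intro a b
      rw [Quotient.eq]
      exact QuotientGroup.rightRel_apply
    refine ⟨(Quotient.mk (QuotientGroup.rightRel E1) e).out, ⟨?_, ?_⟩, ?_⟩
    · exact Finset.mem_image.2 ⟨_, Finset.mem_univ _, rfl⟩
    · rw [← h1, Quotient.out_eq]
    · rintro t ⟨ht, ht'⟩
      obtain ⟨κ, -, rfl⟩ := Finset.mem_image.1 ht
      rw [← h1, Quotient.out_eq] at ht'
      rw [ht']

end coset

theorem prq (hQBK : QbkStmt) (hTFX : TfxStmt) (hBCL : BclStmt) (hBPU : BpuStmt)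
    (hMCK : MckStmt) (hRES : ResStmt) (hFCO : FcoStmt) (hFPX : FpxStmt) (hZRT : ZrtStmt) :
    PrqStmt := by
  intro ℓ _ F V E A As K K0 B Bs _ _ _ _ _ _ _ _ _ _ _ _ _ _ _ _ φ α W _ ψ γ q lam lam0 x y x0 y0
    Q E1 γB βs αB β hV hE D hBs hB hE1
  classical
  have hℓF : (ℓ : F) = 0 := CharP.cast_eq_zero F ℓ
  have hℓX : (ℓ : F⟦X⟧) = 0 := by
    rw [← map_natCast (PowerSeries.C (R := F)), hℓF, map_zero]
  have hW : IsPGroup ℓ W := hV.to_subgroup W
  -- the groups
  have hqw : ∀ w : W, q (γ w) = (α.comp W.subtype) w := D.qw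
  have hfxA : FxR (cw F (α.comp W.subtype)) Q = FxR (cw F α) (Q.map W.subtype) :=
    (hRES F V A α W Q).1
  have hbkA : BKR (cw F (α.comp W.subtype)) Q = BKR (cw F α) (Q.map W.subtype) :=
    (hRES F V A α W Q).2
  have hqfx : ∀ a ∈ FxR (cw F⟦X⟧ γ) Q, q a ∈ FxR (cw F α) (Q.map W.subtype) := by
    intro a ha
    rw [← hfxA]
    exact (hQBK F W A As (α.comp W.subtype) γ q D.sc hqw Q).1 a ha
  have hqbk : ∀ a ∈ BKR (cw F⟦X⟧ γ) Q, q a ∈ BKR (cw F α) (Q.map W.subtype) := by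
    intro a ha
    rw [← hbkA]
    exact (hQBK F W A As (α.comp W.subtype) γ q D.sc hqw Q).2 a ha
  have hE1' : ∀ e, e ∈ E1 ↔ ∀ v ∈ Q.map W.subtype, φ e v = v := by
    intro e
    rw [hE1]
    constructor
    · rintro h _ ⟨u, hu, rfl⟩
      change φ e (u : V) = u
      rw [← D.rs e u, h u hu]
    · intro h u hu
      apply Subtype.ext
      rw [D.rs e u]
      exact h _ ⟨u, hu, rfl⟩
  -- the forms
  obtain ⟨hper, huni, lamB, KB, _, xB, yB, hrfB, hlamB⟩ := hBPU ℓ F⟦X⟧ W E As Bs K ψ γ Q γB βs lam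
    x y E1 hℓX hW D.per D.uni D.rf hBs hE1
  obtain ⟨-, -, lamB0, KB0, _, xB0, yB0, hrfB0, hlamB0⟩ := hBPU ℓ F V E A B K0 φ α
    (Q.map W.subtype) αB β lam0 x0 y0 E1 hℓF hV D.cl.per D.cl.uni D.rf0 hB hE1'
  -- the map
  choose s hs1 hs2 using hBs.surj
  have hwd : ∀ a ∈ FxR (cw F⟦X⟧ γ) Q, ∀ a' ∈ FxR (cw F⟦X⟧ γ) Q, βs a = βs a' →
      β (q a) = β (q a') := by
    intro a ha a' ha' h
    rw [bq_eq hBs ha ha'] at h
    rw [bq_eq hB (hqfx a ha) (hqfx a' ha'), ← map_sub]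
    exact hqbk _ h
  let Qf : Bs → B := fun b => β (q (s b))
  have hQf : ∀ a ∈ FxR (cw F⟦X⟧ γ) Q, Qf (βs a) = β (q a) := by
    intro a ha
    exact hwd _ (hs1 _) a ha (hs2 _)
  have hQadd : ∀ b b', Qf (b + b') = Qf b + Qf b' := by
    intro b b'
    conv_lhs => rw [← hs2 b, ← hs2 b', ← hBs.add _ (hs1 b) _ (hs1 b'),
      hQf _ (Submodule.add_mem _ (hs1 b) (hs1 b')), map_add,
      hB.add _ (hqfx _ (hs1 b)) _ (hqfx _ (hs1 b'))]
  have hQmul : ∀ b b', Qf (b * b') = Qf b * Qf b' := by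
    intro b b'
    conv_lhs => rw [← hs2 b, ← hs2 b', ← hBs.mul _ (hs1 b) _ (hs1 b'),
      hQf _ (fx_mul (hs1 b) (hs1 b')), map_mul,
      hB.mul _ (hqfx _ (hs1 b)) _ (hqfx _ (hs1 b'))]
  have hQ1 : Qf 1 = 1 := by
    rw [← hBs.one, hQf 1 fx_one, map_one, hB.one]
  have hQ0 : Qf 0 = 0 := by
    rw [← bq_zero hBs, hQf 0 (Submodule.zero_mem _), map_zero, bq_zero hB]
  let qB : Bs →+* B :=
    { toFun := Qf, map_one' := hQ1, map_mul' := hQmul, map_zero' := hQ0, map_add' := hQadd }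
  have hqB : ∀ a ∈ FxR (cw F⟦X⟧ γ) Q, qB (βs a) = β (q a) := hQf
  have hsc : ∀ r : F⟦X⟧, qB (algebraMap F⟦X⟧ Bs r) =
      algebraMap F B (PowerSeries.constantCoeff r) := by
    intro r
    rw [Algebra.algebraMap_eq_smul_one, ← hBs.one, ← hBs.smul r 1 fx_one,
      hqB _ (Submodule.smul_mem _ _ fx_one), q_smul D.sc, map_one, hB.smul _ 1 fx_one, hB.one,
      ← Algebra.algebraMap_eq_smul_one]
  -- the frame
  obtain ⟨Ω, _, _, b, c, hfr, -⟩ := D.per
  let _ : MulAction W Ω := MulAction.compHom Ω ((MonoidHom.id W).prod (MonoidHom.id W))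
  have hsm : ∀ (w : W) (ω : Ω), w • ω = ((w, w) : W × W) • ω := fun _ _ => rfl
  have hfW : FrR (cw F⟦X⟧ γ) b c := ⟨fun g t => hfr.1 (g, g) t, fun g t n => hfr.2.1 (g, g) t n,
    hfr.2.2⟩
  have hc0 : ∀ ω, ∃ c0 : A →ₗ[F] F, ∀ a, c0 (q a) = PowerSeries.constantCoeff (c ω a) :=
    fun ω => ⟨(c0 D.sc D.surj D.ker (c ω)).1, (c0 D.sc D.surj D.ker (c ω)).2⟩
  choose d hd using hc0
  have hfA : FrR (cw F (α.comp W.subtype)) (fun ω => q (b ω)) d := by
    have hq : ∀ (h : W) (a : As), q (cw F⟦X⟧ γ h a) = cw F (α.comp W.subtype) h (q a) := by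
      intro h a
      change q (γ h * (a * γ h⁻¹)) = α.comp W.subtype h * (q a * α.comp W.subtype h⁻¹)
      rw [map_mul, map_mul, hqw, hqw]
    refine ⟨?_, ?_, ?_⟩
    · intro g t
      dsimp only
      rw [hfW.1, hq]
    · intro g t n
      obtain ⟨m, rfl⟩ := D.surj n
      rw [← hq, hd, hd, hfW.2.1]
    · intro n
      obtain ⟨m, rfl⟩ := D.surj n
      conv_rhs => rw [← hfW.2.2 m, map_sum]
      refine Finset.sum_congr rfl fun ω _ => ?_
      rw [hd, q_smul D.sc]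
  have hbfx : ∀ ω : Ω, (∀ h ∈ Q, h • ω = ω) → b ω ∈ FxR (cw F⟦X⟧ γ) Q := by
    intro ω hω h hh
    rw [← hfW.1, hω h hh]
  have hsurj : Function.Surjective qB := by
    intro z
    obtain ⟨a, ha, rfl⟩ := hB.surj z
    have ha' : a ∈ FxR (cw F (α.comp W.subtype)) Q := by rw [hfxA]; exact ha
    set a' : As := ∑ ω, PowerSeries.C (d ω a) • b ω with ha'd
    have h1 : a' ∈ FxR (cw F⟦X⟧ γ) Q := by
      intro h hh
      rw [ha'd, map_sum]
      refine Fintype.sum_equiv (MulAction.toPerm h) _ _ ?_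
      intro ω
      rw [map_smul, ← hfW.1]
      change _ = PowerSeries.C (d (h • ω) a) • b (h • ω)
      have h2 := hfA.2.1 h ω a
      rw [ha' h hh] at h2
      rw [h2]
    have h3 : q a' = a := by
      rw [ha'd, map_sum]
      refine Eq.trans ?_ (hfA.2.2 a)
      refine Finset.sum_congr rfl fun ω _ => ?_
      rw [q_smul D.sc, PowerSeries.constantCoeff_C]
    exact ⟨βs a', by rw [hqB _ h1, h3]⟩
  have hker : ∀ z : Bs, qB z = 0 → ∃ z', z = (PowerSeries.X : F⟦X⟧) • z' := by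
    intro z hz
    obtain ⟨a, ha, rfl⟩ := hBs.surj z
    rw [hqB a ha, hB.ker _ (hqfx a ha), ← hbkA] at hz
    have h1 : ∀ ω : Ω, (∀ h ∈ Q, h • ω = ω) → ∃ r, c ω a = PowerSeries.X * r := by
      intro ω hω
      have h2 := hFCO ℓ F W A Ω (cw F (α.comp W.subtype)) (fun ω => q (b ω)) d hℓF hW hfA Q _ hz
        ω hω
      rw [hd] at h2
      exact PowerSeries.X_dvd_iff.2 h2
    choose! r hr using h1
    set K1 : Finset Ω := Finset.univ.filter (fun ω => ∀ h ∈ Q, h • ω = ω) with hK1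
    have hK : ∀ ω, ω ∈ K1 ↔ ∀ h ∈ Q, h • ω = ω := by
      intro ω
      rw [hK1, Finset.mem_filter]
      exact ⟨fun h => h.2, fun h => ⟨Finset.mem_univ _, h⟩⟩
    have h3 := hFPX F⟦X⟧ W As Ω (cw F⟦X⟧ γ) Q (fun ω => c ω a • b ω) K1 (by
      intro h hh ω
      rw [map_smul, hfW.1]
      have h4 := hfW.2.1 h ω a
      rw [ha h hh] at h4
      rw [h4]) hK
    rw [hfW.2.2] at h3
    have h5 : ∑ ω ∈ K1, c ω a • b ω = (PowerSeries.X : F⟦X⟧) • ∑ ω ∈ K1, r ω • b ω := by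
      rw [Finset.smul_sum]
      refine Finset.sum_congr rfl fun ω hω => ?_
      rw [hr ω ((hK ω).1 hω), mul_smul]
    have h6 : ∑ ω ∈ K1, r ω • b ω ∈ FxR (cw F⟦X⟧ γ) Q :=
      Submodule.sum_mem _ fun ω hω => Submodule.smul_mem _ _ (hbfx ω ((hK ω).1 hω))
    refine ⟨βs (∑ ω ∈ K1, r ω • b ω), ?_⟩
    rw [← hBs.smul _ _ h6, bq_eq hBs ha (Submodule.smul_mem _ _ h6), ← h5]
    exact h3
  -- the unit
  have hunt : ∃ u u' : Bs, u * u' = 1 ∧ u' * u = 1 ∧
      ∑ k, xB k * yB k = (PowerSeries.X : F⟦X⟧) • u := by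
    obtain ⟨u, u', hu1, hu2, hu3⟩ := D.unt
    have hX := (hTFX ℓ F W E As ψ γ hW D.per).1
    have huc : ∀ c : As, c * u = u * c := by
      intro c
      have h1 := hZRT F⟦X⟧ W As K γ lam x y D.rf 1 fx_one c
      simp only [mul_one] at h1
      rw [hu3, mul_smul_comm, smul_mul_assoc] at h1
      rw [← sub_eq_zero]
      apply hX
      rw [smul_sub, h1, sub_self]
    have huc' : ∀ c : As, c * u' = u' * c := by
      intro c
      calc c * u' = u' * u * (c * u') := by rw [hu2, one_mul]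
        _ = u' * (u * c) * u' := by simp only [mul_assoc]
        _ = u' * (c * u) * u' := by rw [huc]
        _ = u' * c * (u * u') := by simp only [mul_assoc]
        _ = u' * c := by rw [hu1, mul_one]
    have hufx : u ∈ FxR (cw F⟦X⟧ γ) Q := fx_of_comm fun v => huc _
    have hufx' : u' ∈ FxR (cw F⟦X⟧ γ) Q := fx_of_comm fun v => huc' _
    choose n n' hn1 hn2 hn3 using D.uni
    obtain ⟨T, hT1, hT2⟩ := exists_T E1
    have hT3 : ∀ e : E, ∃! t, t ∈ T ∧ ∀ v ∈ Q, (ψ t)⁻¹ v = (ψ e)⁻¹ v := by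
      intro e
      have h1 : ∀ t : E, (∀ v ∈ Q, (ψ t)⁻¹ v = (ψ e)⁻¹ v) ↔ t * e⁻¹ ∈ E1 := by
        intro t
        rw [hE1]
        refine forall₂_congr fun v _ => ?_
        rw [map_mul, map_inv, MulAut.mul_apply]
        constructor
        · intro h
          rw [← h, MulAut.apply_inv_self]
        · intro h
          conv_lhs => rw [← h]
          rw [MulAut.inv_apply_self]
      simp only [h1]
      exact hT2 e
    have h1 := hMCK ℓ F⟦X⟧ W E As Bs K KB ψ γ Q γB βs lam x y lamB xB yB n n' T hℓX hW D.per D.rf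
      hBs hrfB hlamB (fun e => ⟨hn1 e, hn2 e, hn3 e⟩) hT3 1 fx_one
    simp only [mul_one, hn1, hBs.one] at h1
    rw [hu3, Finset.sum_const, hT1, hBs.smul _ _ hufx] at h1
    have hidx : (E1.index : F) ≠ 0 := by
      rw [Ne, CharP.cast_eq_zero_iff F ℓ]
      intro h
      exact hE (h.trans (Subgroup.index_dvd_card E1))
    have hC : (PowerSeries.C (E1.index : F)⁻¹ : F⟦X⟧) * (E1.index : F⟦X⟧) = 1 := by
      rw [← map_natCast (PowerSeries.C (R := F)), ← map_mul, inv_mul_cancel₀ hidx, map_one]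
    refine ⟨PowerSeries.C (E1.index : F)⁻¹ • βs u, (E1.index : F⟦X⟧) • βs u', ?_, ?_, ?_⟩
    · rw [smul_mul_smul_comm, hC, one_smul, ← hBs.mul _ hufx _ hufx', hu1, hBs.one]
    · rw [smul_mul_smul_comm, mul_comm, hC, one_smul, ← hBs.mul _ hufx' _ hufx, hu2, hBs.one]
    · rw [smul_comm, h1, ← Nat.cast_smul_eq_nsmul F⟦X⟧, smul_smul, hC, one_smul]
  refine ⟨qB, lamB, lamB0, KB, KB0, inferInstance, inferInstance, xB, yB, xB0, yB0, hqB, hlamB,
    ?_⟩
  exact {
    cl := hBCL ℓ F V E A B φ α (Q.map W.subtype) αB β E1 hV hE D.cl hB hE1'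
    rs := fun e w => D.rs e w
    per := hper
    uni := huni
    sc := hsc
    surj := hsurj
    ker := hker
    qw := fun w => by rw [← hBs.om, hqB _ (fx_al w), D.qw, hB.om]
    rf := hrfB
    rf0 := hrfB0
    lr := fun z => by
      obtain ⟨a, ha, rfl⟩ := hBs.surj z
      rw [hlamB a ha, D.lr, hqB a ha, hlamB0 _ (hqfx a ha)]
    unt := hunt }

end Pool.Agent.PSS.S3.H41
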