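import Pool.Agent.PSS.StmtsOB

/-! Squad PST, block OB, row GAM: if the forms vanish the cocycle is a coboundary on `V`. -/

open scoped BigOperators TensorProduct

noncomputable section

namespace Pool.Agent.PSS.H41

open Pool.Agent.PFD.D2b (FrR)
open Finset

/-- XCW for the diagonal action -/
theorem gam_x (xcw : XcwStmt) (V Ω D : Type) [CommGroup V] [MulAction (V × V) Ω] [AddCommGroup D]
    (W : Subgroup V) (f : V → V → Ω → D) (hdiv : ∀ n : ℕ, n ≠ 0 → ∀ d : D, ∃ d', n • d' = d)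
    (hW : ∀ w ∈ W, ∀ u v ω, f (u * w) v ω = f u v ω ∧ f u (v * w) ω = f u v ω ∧
      f u v (((w, w) : V × V) • ω) = f u v ω)
    (hs : ∀ ω u v, ((u, u) : V × V) • ω = ω → ((v, v) : V × V) • ω = ω → f u v ω = f v u ω)
    (hc : ∀ u v w ω, f v w (((u⁻¹, u⁻¹) : V × V) • ω) - f (u * v) w ω + f u (v * w) ω -
      f u v ω = 0) :
    ∃ g : V → Ω → D, (∀ w ∈ W, ∀ u ω, g (u * w) ω = g u ω ∧
        g u (((w, w) : V × V) • ω) = g u ω) ∧
      ∀ u v ω, f u v ω = g v (((u⁻¹, u⁻¹) : V × V) • ω) - g (u * v) ω + g u ω := by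
  let _ : MulAction V Ω := MulAction.compHom Ω ((MonoidHom.id V).prod (MonoidHom.id V))
  exact xcw V Ω D W f hdiv hW hs hc

theorem gam_core (xcw : XcwStmt) {K V B Ω : Type} [Field K] [CharZero K] [CommGroup V] [Ring B]
    [Algebra K B] [Fintype Ω] [MulAction (V × V) Ω] (W : Subgroup V) (β : V →* B) (bB : Ω → B)
    (cK : Ω → (B →ₗ[K] K)) (hfr : FrR (bw K β) bB cK) (S : AddSubgroup K) (I : AddSubgroup B)
    (hI1 : ∀ x ∈ I, ∀ v, x * β v ∈ I) (hI2 : ∀ ω, ∀ x ∈ I, cK ω x ∈ S)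
    (hI3 : ∀ s ∈ S, ∀ ω, s • bB ω ∈ I) (cc : B →ₗ[K] B →ₗ[K] B)
    (hrel : WB2 β W (fun a b => cc a b))
    (hcyc : ∀ u v w, dl (fun a b => cc a b) (β u) (β v) (β w) ∈ I)
    (hF : ∀ (ω : Ω) (u v : V), ((u, u) : V × V) • ω = ω → ((v, v) : V × V) • ω = ω →
      cK ω ((cc (β u) (β v) - cc (β v) (β u)) * β (u * v)⁻¹) ∈ S) :
    ∃ γ : V → B, (∀ w ∈ W, ∀ v, γ (v * w) = γ v * β w ∧ γ v * β w = β w * γ v) ∧
      ∀ u v, β u * γ v + γ u * β v + cc (β u) (β v) - γ (u * v) ∈ I := by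
  obtain ⟨hf1, hf2, hf3⟩ := hfr
  have hbw : ∀ (u : V) (x : B), bw K β (u, u) x = β u * x * β u⁻¹ := by
    intro u x
    simp only [bw, MonoidHom.coe_mk, OneHom.coe_mk, LinearMap.comp_apply,
      LinearMap.mulRight_apply, LinearMap.mulLeft_apply, mul_assoc]
  have hinv : ∀ u : V, β u * β u⁻¹ = 1 := fun u => by rw [← map_mul, mul_inv_cancel, map_one]
  have hinv' : ∀ u : V, β u⁻¹ * β u = 1 := fun u => by rw [← map_mul, inv_mul_cancel, map_one]
  have hcomm : ∀ u v : V, β u * β v = β v * β u := fun u v => by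
    rw [← map_mul, mul_comm, map_mul]
  have hact : ∀ (u : V) (ω : Ω), ((u, u) : V × V) • ((u⁻¹, u⁻¹) : V × V) • ω = ω := by
    intro u ω
    rw [smul_smul]
    have : ((u, u) : V × V) * (u⁻¹, u⁻¹) = 1 := by
      rw [Prod.mk_mul_mk, mul_inv_cancel]
      rfl
    rw [this, one_smul]
  -- the values of the coordinates at the translates
  have hcK : ∀ (u : V) (ω : Ω) (n : B), cK (((u⁻¹, u⁻¹) : V × V) • ω) n =
      cK ω (β u * n * β u⁻¹) := by
    intro u ω n
    rw [← hbw, ← hf2 (u, u) (((u⁻¹, u⁻¹) : V × V) • ω) n, hact]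
  -- the cochain
  let k : V → V → B := fun u v => cc (β u) (β v) * β (u * v)⁻¹
  have hk : ∀ u v, k u v = cc (β u) (β v) * β (u * v)⁻¹ := fun u v => rfl
  have hw1 : ∀ w ∈ W, ∀ u v, cc (β (u * w)) (β v) = cc (β u) (β v) * β w := by
    intro w hw u v
    obtain ⟨-, h2, -⟩ := hrel w hw (β u) (β v)
    obtain ⟨-, -, h3⟩ := hrel w hw (β u) (β v)
    simp only at h2 h3
    rw [map_mul, h2, hcomm w v, h3]
  have hw2 : ∀ w ∈ W, ∀ u v, cc (β u) (β (v * w)) = cc (β u) (β v) * β w := by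
    intro w hw u v
    obtain ⟨-, -, h3⟩ := hrel w hw (β u) (β v)
    simp only at h3
    rw [map_mul, h3]
  have hw3 : ∀ w ∈ W, ∀ u v, β w * cc (β u) (β v) = cc (β u) (β v) * β w := by
    intro w hw u v
    obtain ⟨h1, -, -⟩ := hrel w hw (β u) (β v)
    simp only at h1
    rw [← h1, hcomm w u, ← map_mul, hw1 w hw]
  have hk1 : ∀ w ∈ W, ∀ u v, k (u * w) v = k u v := by
    intro w hw u v
    rw [hk, hk, hw1 w hw, mul_assoc, ← map_mul, mul_right_comm u w v, mul_inv (u * v) w,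
      mul_comm w, mul_assoc, inv_mul_cancel, mul_one]
  have hk2 : ∀ w ∈ W, ∀ u v, k u (v * w) = k u v := by
    intro w hw u v
    rw [hk, hk, hw2 w hw, mul_assoc, ← map_mul]
    congr 2
    group
  have hk3 : ∀ w ∈ W, ∀ u v, β w * k u v * β w⁻¹ = k u v := by
    intro w hw u v
    rw [hk, ← mul_assoc, hw3 w hw, mul_assoc (cc (β u) (β v)), hcomm w, ← mul_assoc, mul_assoc,
      hinv, mul_one]
  have hk4 : ∀ u v w, β u * k v w * β u⁻¹ - k (u * v) w + k u (v * w) - k u v ∈ I := by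
    intro u v w
    have h := hI1 _ (hcyc u v w) (u * v * w)⁻¹
    refine (congrArg (· ∈ I) ?_).mp h
    simp only [dl, hk, sub_mul, add_mul, ← map_mul]
    have e1 : β u * cc (β v) (β w) * β (u * v * w)⁻¹ =
        β u * (cc (β v) (β w) * β (v * w)⁻¹) * β u⁻¹ := by
      simp only [mul_assoc]
      rw [← map_mul]
      congr 3
      group
    have e2 : cc (β u) (β v) * β w * β (u * v * w)⁻¹ = cc (β u) (β v) * β (u * v)⁻¹ := by
      rw [mul_assoc, ← map_mul]
      congr 2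
      group
    rw [e1, e2, mul_assoc u v w]
  -- the coordinates modulo `S`
  let f : V → V → Ω → K ⧸ S := fun u v ω => (QuotientAddGroup.mk (cK ω (k u v)) : K ⧸ S)
  have hdiv : ∀ n : ℕ, n ≠ 0 → ∀ d : K ⧸ S, ∃ d', n • d' = d := by
    intro n hn d
    induction d using QuotientAddGroup.induction_on with
    | H z =>
      refine ⟨(QuotientAddGroup.mk ((n : K)⁻¹ * z) : K ⧸ S), ?_⟩
      rw [← QuotientAddGroup.mk_nsmul, nsmul_eq_mul, ← mul_assoc,
        mul_inv_cancel₀ (Nat.cast_ne_zero.2 hn), one_mul]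
  obtain ⟨g, hg1, hg2⟩ := gam_x xcw V Ω (K ⧸ S) W f hdiv (by
      intro w hw u v ω
      refine ⟨?_, ?_, ?_⟩
      · show (QuotientAddGroup.mk (cK ω (k (u * w) v)) : K ⧸ S) = QuotientAddGroup.mk _
        rw [hk1 w hw]
      · show (QuotientAddGroup.mk (cK ω (k u (v * w))) : K ⧸ S) = QuotientAddGroup.mk _
        rw [hk2 w hw]
      · show (QuotientAddGroup.mk (cK (((w, w) : V × V) • ω) (k u v)) : K ⧸ S) =
          QuotientAddGroup.mk _
        conv_lhs => rw [← hk3 w hw u v, ← hbw, hf2]) (by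
      intro ω u v hu hv
      show (QuotientAddGroup.mk (cK ω (k u v)) : K ⧸ S) = QuotientAddGroup.mk (cK ω (k v u))
      rw [eq_comm, QuotientAddGroup.eq]
      have h := hF ω u v hu hv
      refine (congrArg (· ∈ S) ?_).mp h
      rw [neg_add_eq_sub, ← map_sub, hk, hk, sub_mul, mul_comm v u]) (by
      intro u v w ω
      show (QuotientAddGroup.mk (cK (((u⁻¹, u⁻¹) : V × V) • ω) (k v w)) : K ⧸ S) -
        QuotientAddGroup.mk (cK ω (k (u * v) w)) + QuotientAddGroup.mk (cK ω (k u (v * w))) -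
        QuotientAddGroup.mk (cK ω (k u v)) = 0
      rw [hcK, ← QuotientAddGroup.mk_sub, ← QuotientAddGroup.mk_add, ← QuotientAddGroup.mk_sub,
        ← map_sub, ← map_add, ← map_sub, QuotientAddGroup.eq_zero_iff]
      exact hI2 ω _ (hk4 u v w))
  -- representatives
  let r : V → Ω → K := fun u ω => (g u ω).out
  have hr : ∀ u ω, (QuotientAddGroup.mk (r u ω) : K ⧸ S) = g u ω := fun u ω =>
    QuotientAddGroup.out_eq' _
  have hr1 : ∀ w ∈ W, ∀ u ω, r (u * w) ω = r u ω := fun w hw u ω =>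
    congrArg Quotient.out (hg1 w hw u ω).1
  have hr2 : ∀ w ∈ W, ∀ u ω, r u (((w, w) : V × V) • ω) = r u ω := fun w hw u ω =>
    congrArg Quotient.out (hg1 w hw u ω).2
  let h : V → B := fun u => ∑ ω, r u ω • bB ω
  have hh : ∀ u, h u = ∑ ω, r u ω • bB ω := fun u => rfl
  have hh1 : ∀ w ∈ W, ∀ u, h (u * w) = h u := by
    intro w hw u
    rw [hh, hh]
    exact Finset.sum_congr rfl fun ω _ => by rw [hr1 w hw]
  have hh3 : ∀ u v, β u * h v * β u⁻¹ = ∑ ω, r v (((u⁻¹, u⁻¹) : V × V) • ω) • bB ω := by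
    intro u v
    rw [← hbw, hh, map_sum]
    rw [← Equiv.sum_comp (MulAction.toPerm ((u, u) : V × V))
      (fun ω => r v (((u⁻¹, u⁻¹) : V × V) • ω) • bB ω)]
    refine Finset.sum_congr rfl fun ω _ => ?_
    rw [MulAction.toPerm_apply, map_smul, hf1]
    have e : ((u⁻¹, u⁻¹) : V × V) • ((u, u) : V × V) • ω = ω := by
      have := hact u⁻¹ ω
      rwa [inv_inv] at this
    rw [e]
  have hh2 : ∀ w ∈ W, ∀ u, β w * h u = h u * β w := by
    intro w hw u
    have e : β w * h u * β w⁻¹ = h u := by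
      rw [hh3, hh]
      refine Finset.sum_congr rfl fun ω _ => ?_
      have := hr2 w⁻¹ (W.inv_mem hw) u ω
      rw [this]
    have e2 : β w * h u * β w⁻¹ * β w = h u * β w := by rw [e]
    rw [← e2, mul_assoc, hinv', mul_one]
  have hh4 : ∀ u v, k u v - (β u * h v * β u⁻¹ - h (u * v) + h u) ∈ I := by
    intro u v
    have e : k u v - (β u * h v * β u⁻¹ - h (u * v) + h u) =
        ∑ ω, (cK ω (k u v) - (r v (((u⁻¹, u⁻¹) : V × V) • ω) - r (u * v) ω + r u ω)) • bB ω := by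
      conv_lhs => rw [← hf3 (k u v)]
      rw [hh3, hh, hh]
      simp only [sub_smul, add_smul, Finset.sum_sub_distrib, Finset.sum_add_distrib]
    rw [e]
    refine AddSubgroup.sum_mem I fun ω _ => hI3 _ ?_ ω
    have h2 := hg2 u v ω
    rw [← hr, ← hr, ← hr] at h2
    have h3 : (QuotientAddGroup.mk (cK ω (k u v)) : K ⧸ S) =
      QuotientAddGroup.mk (r v (((u⁻¹, u⁻¹) : V × V) • ω)) - QuotientAddGroup.mk (r (u * v) ω) +
        QuotientAddGroup.mk (r u ω) := h2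
    rw [← QuotientAddGroup.mk_sub, ← QuotientAddGroup.mk_add, eq_comm, QuotientAddGroup.eq] at h3
    rwa [neg_add_eq_sub] at h3
  refine ⟨fun v => - h v * β v, fun w hw v => ⟨?_, ?_⟩, fun u v => ?_⟩
  · show - h (v * w) * β (v * w) = - h v * β v * β w
    rw [hh1 w hw, map_mul, mul_assoc]
  · show - h v * β v * β w = β w * (- h v * β v)
    rw [neg_mul, neg_mul, mul_neg, mul_assoc, hcomm v w, ← mul_assoc, ← mul_assoc, hh2 w hw]
  · show β u * (- h v * β v) + - h u * β u * β v + cc (β u) (β v) - - h (u * v) * β (u * v) ∈ I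
    have h1 := hI1 _ (hh4 u v) (u * v)
    refine (congrArg (· ∈ I) ?_).mp h1
    have e1 : k u v * β (u * v) = cc (β u) (β v) := by rw [hk, mul_assoc, hinv', mul_one]
    have e2 : β u * h v * β u⁻¹ * β (u * v) = β u * (h v * β v) := by
      rw [map_mul, ← mul_assoc, mul_assoc (β u * h v), hinv', mul_one, mul_assoc]
    rw [sub_mul, e1, add_mul, sub_mul, e2, map_mul, neg_mul, mul_neg, neg_mul, neg_mul, neg_mul]
    simp only [mul_assoc]
    abel

theorem gam (xcw : XcwStmt) : GamStmt := by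
  intro R K V A B κ Ω _ _ _ _ _ _ _ _ _ _ _ _ _ _ W α lam x y b c C cc hZ hF
  obtain ⟨hrel, -, hcyc⟩ := hZ
  obtain ⟨γ, h1, h2⟩ := gam_core xcw W (ia C.i α) (fun ω => C.i (b ω)) C.cK C.frK
    (algebraMap R K : R →+ K).range ((C.i : A →+* B) : A →+ B).range (by
      rintro _ ⟨a, rfl⟩ v
      exact ⟨a * α v, map_mul C.i a (α v)⟩) (by
      rintro ω _ ⟨a, rfl⟩
      exact ⟨c ω a, (C.ck ω a).symm⟩) (by
      rintro _ ⟨s, rfl⟩ ω
      refine ⟨s • b ω, ?_⟩
      show C.i (s • b ω) = algebraMap R K s • C.i (b ω)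
      rw [C.tow, map_smul]) cc hrel (fun u v w => hcyc (α u) (α v) (α w)) (by
      intro ω u v hu hv
      obtain ⟨s, hs⟩ := hF ω u v hu hv
      exact ⟨s, hs.symm⟩)
  exact ⟨γ, h1, fun u v => h2 u v⟩

end Pool.Agent.PSS.H41
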