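import Pool.Agent.PSS.StmtsOB
import Pool.Agent.Helper33_PSS.H2V

/-! Squad PST, block OB, row H2W: vanishing forms imply that the cocycle is a coboundary. -/

open scoped BigOperators TensorProduct

noncomputable section

namespace Pool.Agent.PSS.H41

open Pool.Agent.PFD.D2b (FrR)
open Pool.Agent.PSS.H33
open Finset

theorem h2w (csu : CsuStmt) (hcc : HccStmt) (lfg : LfgStmt) (gam : GamStmt) (hcw : HcwStmt) :
    H2wStmt := by
  intro R K V E A B κ Ω _ _ _ _ _ _ _ _ _ _ _ _ _ _ _ φ W α lam x y b c C u hV hS hu cc hZ hF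
  obtain ⟨hw, hn, hc⟩ := hZ
  obtain ⟨-, hcsm⟩ := csu R V A κ α lam x y u C.rf hu
  obtain ⟨γ, hγ1, hγ2⟩ := gam R K V A B κ Ω W α lam x y b c C cc ⟨hw, hn, hc⟩ hF
  obtain ⟨g₁, hg1w, hg1, hb⟩ := hcw R K V E A B κ Ω φ W α lam x y b c C cc γ hV hS ⟨hw, hn, hc⟩
    hγ1 hγ2
  obtain ⟨g₂, hg2w, hg2, hg2c⟩ := hcc R K V A B κ Ω W α lam x y b c C κ x (fun i => y i * u) hcsm
    (cg cc g₁) (cg_wb hw hg1w) (cg_nrm hn hg1) (fun a₁ a₂ a₃ => by
      rw [cg_dl]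
      exact hc a₁ a₂ a₃) (fun v a => hb v a)
  obtain ⟨H, hHw, hH1, hH⟩ := lfg R K V A B κ Ω W α lam x y b c C g₂ hg2w hg2
  refine ⟨H - g₁, fun w hw' t => ⟨?_, ?_⟩, ?_, fun a₁ a₂ => ?_⟩
  · rw [LinearMap.sub_apply, LinearMap.sub_apply, (hHw w hw' t).1, (hg1w w hw' t).1, mul_sub]
  · rw [LinearMap.sub_apply, LinearMap.sub_apply, (hHw w hw' t).2, (hg1w w hw' t).2, sub_mul]
  · rw [LinearMap.sub_apply, hH1, hg1, sub_zero]
  · have h1 := hg2c a₁ a₂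
    have h2 := in_ml a₁ (hH a₂)
    have h3 := hH (a₁ * a₂)
    have h4 := in_mr a₂ (hH a₁)
    have h5 := in_sub h1 (in_add (in_sub h2 h3) h4)
    rw [cg_apply] at h5
    refine (congrArg (In C.i) ?_).mp h5
    simp only [d1, LinearMap.sub_apply, map_mul, mul_sub, sub_mul]
    abel

end Pool.Agent.PSS.H41
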