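import Pool.Agent.PSS.StmtsOB
import Pool.Agent.Helper47_PSS.STT

/-! Squad PST, block OB, row MUB: a lift of a coefficient of the deformation of the special fibre. -/

open scoped BigOperators TensorProduct

noncomputable section

namespace Pool.Agent.PSS.H41

open Pool.Agent.PFD.D2 (Cdv FibG)
open Pool.Agent.PFD.D2b (FrR)
open Finset

theorem mub (BLT : BltStmt) : MubStmt := by
  intro R K F V A A₀ B κ Ω _ _ _ _ _ _ _ _ _ _ _ _ _ _ _ _ _ W α lam x y b c C cv f α₀ D₀ k hα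
  obtain ⟨μ, hμ1, hμ2, hμ3⟩ := BLT R F V A A₀ Ω W α b c cv f α₀ (D₀.m (k + 1)) C.fr hα
    (fun w hw a a' => ⟨D₀.wl (k + 1) ⟨w, hw⟩ a a', D₀.wm (k + 1) ⟨w, hw⟩ a a',
      D₀.wr (k + 1) ⟨w, hw⟩ a a'⟩) ⟨D₀.n1 k, D₀.n2 k⟩
  obtain ⟨μB, hB1, hB2, hB3⟩ := H47.stt_ext α W lam x y b c C μ hμ1 hμ2
  exact ⟨μB, hB2, hB3, fun a₁ a₂ => ⟨μ a₁ a₂, (hB1 a₁ a₂).symm, hμ3 a₁ a₂⟩⟩

end Pool.Agent.PSS.H41
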