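import Pool.Agent.PSS.StmtsOB
import Pool.Agent.Helper47_PSS.STT

/-! Squad PST, block OB, row TGT: the difference class of a deformation and its target. -/

open scoped BigOperators TensorProduct

noncomputable section

namespace Pool.Agent.PSS.H41

open Pool.Agent.PFD.D2 (Cdv FibG)
open Pool.Agent.PFD.D2b (FrR)
open Finset
open Pool.Agent.PSS.H47 (Rl rl_sum dm_dl)

section

variable {K V B : Type} [Field K] [CommGroup V] [Ring B] [Algebra K B]

lemma tgt_wb2 {β : V →* B} {W : Subgroup V} {c c₁ c₂ : B →ₗ[K] B →ₗ[K] B} {k : K}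
    (hc : ∀ x y, c x y = k • (c₁ x y - c₂ x y))
    (h₁ : WB2 β W (fun a b => c₁ a b)) (h₂ : WB2 β W (fun a b => c₂ a b)) :
    WB2 β W (fun a b => c a b) := by
  intro w hw u v
  obtain ⟨h1, h2, h3⟩ := h₁ w hw u v
  obtain ⟨h4, h5, h6⟩ := h₂ w hw u v
  simp only at h1 h2 h3 h4 h5 h6
  simp only [hc]
  refine ⟨?_, ?_, ?_⟩
  · rw [h1, h4, ← mul_sub, mul_smul_comm]
  · rw [h2, h5]
  · rw [h3, h6, ← sub_mul, smul_mul_assoc]

lemma tgt_nrm {c c₁ c₂ : B →ₗ[K] B →ₗ[K] B} {k : K}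
    (hc : ∀ x y, c x y = k • (c₁ x y - c₂ x y))
    (h₁ : Nrm (fun a b => c₁ a b)) (h₂ : Nrm (fun a b => c₂ a b)) :
    Nrm (fun a b => c a b) := by
  obtain ⟨h1, h2⟩ := h₁
  obtain ⟨h3, h4⟩ := h₂
  simp only at h1 h2 h3 h4
  refine ⟨fun v => ?_, fun v => ?_⟩
  · show c 1 v = 0
    rw [hc, h1, h3, sub_zero, smul_zero]
  · show c v 1 = 0
    rw [hc, h2, h4, sub_zero, smul_zero]

lemma tgt_dl {c c₁ c₂ : B →ₗ[K] B →ₗ[K] B} {k : K}
    (hc : ∀ x y, c x y = k • (c₁ x y - c₂ x y)) (x y z : B) :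
    dl (fun a b => c a b) x y z =
      k • (dl (fun a b => c₁ a b) x y z - dl (fun a b => c₂ a b) x y z) := by
  simp only [dl, hc, smul_sub, smul_add, mul_smul_comm, smul_mul_assoc, mul_sub, sub_mul]
  abel

end

lemma tgt_rl {R A B A₀ : Type} [CommRing R] [Ring A] [Algebra R A] [Ring B] [Algebra R B]
    [Ring A₀] (i : A →ₐ[R] B) (q : A →+* A₀) (μ : B → B → B) (ν : A₀ → A₀ → A₀)
    (h : ∀ a₁ a₂, ∃ e, i e = μ (i a₁) (i a₂) ∧ q e = ν (q a₁) (q a₂)) (a₁ a₂ a₃ : A) :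
    ∃ e, i e = dl μ (i a₁) (i a₂) (i a₃) ∧ q e = dl ν (q a₁) (q a₂) (q a₃) := by
  obtain ⟨e1, h1, g1⟩ := h a₂ a₃
  obtain ⟨e2, h2, g2⟩ := h (a₁ * a₂) a₃
  obtain ⟨e3, h3, g3⟩ := h a₁ (a₂ * a₃)
  obtain ⟨e4, h4, g4⟩ := h a₁ a₂
  refine ⟨a₁ * e1 - e2 + e3 - e4 * a₃, ?_, ?_⟩
  · simp only [dl, map_add, map_sub, map_mul, h1, h2, h3, h4]
  · simp only [dl, map_add, map_sub, map_mul, g1, g2, g3, g4]

theorem tgt (TRA : TraStmt) (MUB : MubStmt) : TgtStmt := by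
  intro R K F V A A₀ B κ Ω _ _ _ _ _ _ _ _ _ _ _ _ _ _ _ _ _ _ _ _ W α lam x y b c C
    cv f α₀ D₀ hα P m N μ cc hT hI hμW hμN hμR hccp
  obtain ⟨⟨D, hD⟩, hW2, hNr⟩ := TRA K V B (ia C.i α) W P m hT
  -- the scalar
  set p : K := algebraMap R K cv.π with hp
  have hπ : cv.π ≠ 0 := by
    intro h
    have := cv.reg 1 (by rw [h, zero_mul])
    exact one_ne_zero this
  have hp0 : p ≠ 0 := by
    intro h
    refine hπ (C.rinj ?_)
    rw [map_zero]
    exact h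
  have hps : ∀ a : A, p • C.i a = C.i (cv.π • a) := by
    intro a
    rw [hp, C.tow, map_smul]
  have hcc : ∀ u v, cc u v = p⁻¹ • (m (N + 1) u v - μ u v) := by
    intro u v
    rw [← hccp, smul_smul, inv_mul_cancel₀ hp0, one_smul]
  -- elements with the same reduction
  have hdiff : ∀ e e' : A, f.q e = f.q e' → ∃ y', p⁻¹ • (C.i e - C.i e') = C.i y' := by
    intro e e' h
    obtain ⟨y', hy'⟩ := f.ker (e - e') (by rw [map_sub, h, sub_self])
    refine ⟨y', ?_⟩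
    rw [← map_sub, hy', ← hps, smul_smul, inv_mul_cancel₀ hp0, one_smul]
  refine ⟨⟨tgt_wb2 hcc (hW2 (N + 1)) hμW, tgt_nrm hcc (hNr N) hμN, ?_⟩, ?_⟩
  · intro a₁ a₂ a₃
    have h := dm_dl D N (C.i a₁) (C.i a₂) (C.i a₃)
    rw [hD] at h
    have h' := dm_dl D₀ N (f.q a₁) (f.q a₂) (f.q a₃)
    have hR : Rl (C.i : A →+* B) f.q (dl (fun a b => m (N + 1) a b) (C.i a₁) (C.i a₂) (C.i a₃))
        (dl (fun a b => D₀.m (N + 1) a b) (f.q a₁) (f.q a₂) (f.q a₃)) := by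
      rw [h, h']
      refine rl_sum (C.i : A →+* B) f.q _ _ _ fun p hp => ?_
      obtain ⟨hp1, hp2, hp3⟩ := Finset.mem_filter.1 hp
      have hp4 := Finset.HasAntidiagonal.mem_antidiagonal.1 hp1
      obtain ⟨e1, he1, hq1⟩ := hI p.2 (by omega) a₁ a₂
      obtain ⟨e2, he2, hq2⟩ := hI p.2 (by omega) a₂ a₃
      obtain ⟨e3, he3, hq3⟩ := hI p.1 (by omega) e1 a₃
      obtain ⟨e4, he4, hq4⟩ := hI p.1 (by omega) a₁ e2
      refine ⟨e3 - e4, ?_, ?_⟩
      · show C.i (e3 - e4) = _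
        rw [map_sub, he3, he4, he1, he2]
      · rw [map_sub, hq3, hq4, hq1, hq2]
    obtain ⟨e, he, hqe⟩ := hR
    have he' : C.i e = dl (fun a b => m (N + 1) a b) (C.i a₁) (C.i a₂) (C.i a₃) := he
    obtain ⟨e', he1, he2⟩ := tgt_rl C.i f.q (fun a b => μ a b) (fun a b => D₀.m (N + 1) a b)
      hμR a₁ a₂ a₃
    obtain ⟨y', hy'⟩ := hdiff e e' (by rw [hqe, he2])
    exact ⟨y', by rw [tgt_dl hcc, ← he', ← he1, hy']⟩
  · intro hN
    obtain ⟨μ', hμ'W, hμ'N, hμ'R⟩ := MUB R K F V A A₀ B κ Ω W α lam x y b c C cv f α₀ D₀ (N + 1) hα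
    let c' : B →ₗ[K] B →ₗ[K] B := p⁻¹ • (μ' - m (N + 1 + 1))
    have hc' : ∀ x y, c' x y = p⁻¹ • (μ' x y - m (N + 1 + 1) x y) := fun x y => rfl
    refine ⟨c', tgt_wb2 hc' hμ'W (hW2 (N + 1 + 1)), tgt_nrm hc' hμ'N (hNr (N + 1)), ?_⟩
    intro a₁ a₂ a₃
    -- the modified coefficients
    let mt : ℕ → (B →ₗ[K] B →ₗ[K] B) := fun n => if n = N + 1 then μ else m n
    have hmt1 : mt (N + 1) = μ := by simp only [mt, if_true]
    have hmt2 : ∀ n, n ≠ N + 1 → mt n = m n := fun n hn => by simp only [mt]; rw [if_neg hn]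
    have hmtI : ∀ n ≤ N + 1, ∀ a₁ a₂, ∃ e, C.i e = mt n (C.i a₁) (C.i a₂) ∧
        f.q e = D₀.m n (f.q a₁) (f.q a₂) := by
      intro n hn a₁ a₂
      by_cases h : n = N + 1
      · rw [h, hmt1]
        exact hμR a₁ a₂
      · rw [hmt2 n h]
        exact hI n (by omega) a₁ a₂
    have h := dm_dl D (N + 1) (C.i a₁) (C.i a₂) (C.i a₃)
    rw [hD] at h
    have h' := dm_dl D₀ (N + 1) (f.q a₁) (f.q a₂) (f.q a₃)
    have hR : Rl (C.i : A →+* B) f.q
        (∑ p ∈ (antidiagonal (N + 1 + 1)).filter (fun p => p.1 ≠ 0 ∧ p.2 ≠ 0),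
          (mt p.1 (mt p.2 (C.i a₁) (C.i a₂)) (C.i a₃) -
            mt p.1 (C.i a₁) (mt p.2 (C.i a₂) (C.i a₃))))
        (dl (fun a b => D₀.m (N + 1 + 1) a b) (f.q a₁) (f.q a₂) (f.q a₃)) := by
      rw [h']
      refine rl_sum (C.i : A →+* B) f.q _ _ _ fun p hp => ?_
      obtain ⟨hp1, hp2, hp3⟩ := Finset.mem_filter.1 hp
      have hp4 := Finset.HasAntidiagonal.mem_antidiagonal.1 hp1
      obtain ⟨e1, he1, hq1⟩ := hmtI p.2 (by omega) a₁ a₂
      obtain ⟨e2, he2, hq2⟩ := hmtI p.2 (by omega) a₂ a₃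
      obtain ⟨e3, he3, hq3⟩ := hmtI p.1 (by omega) e1 a₃
      obtain ⟨e4, he4, hq4⟩ := hmtI p.1 (by omega) a₁ e2
      refine ⟨e3 - e4, ?_, ?_⟩
      · show C.i (e3 - e4) = _
        rw [map_sub, he3, he4, he1, he2]
      · rw [map_sub, hq3, hq4, hq1, hq2]
    obtain ⟨e, he, hqe⟩ := hR
    have he' : C.i e = _ := he
    obtain ⟨e', he1, he2⟩ := tgt_rl C.i f.q (fun a b => μ' a b)
      (fun a b => D₀.m (N + 1 + 1) a b) hμ'R a₁ a₂ a₃
    obtain ⟨y', hy'⟩ := hdiff e' e (by rw [hqe, he2])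
    -- the difference of the sums
    have hsum : dl (fun a b => m (N + 1 + 1) a b) (C.i a₁) (C.i a₂) (C.i a₃) - C.i e =
        p • brk (fun a b => m 1 a b) (fun a b => cc a b) (C.i a₁) (C.i a₂) (C.i a₃) := by
      rw [h, he', ← Finset.sum_sub_distrib]
      have hsub : ({(1, N + 1), (N + 1, 1)} : Finset (ℕ × ℕ)) ⊆
          (antidiagonal (N + 1 + 1)).filter (fun p => p.1 ≠ 0 ∧ p.2 ≠ 0) := by
        intro q hq
        simp only [Finset.mem_insert, Finset.mem_singleton] at hq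
        rw [Finset.mem_filter, Finset.HasAntidiagonal.mem_antidiagonal]
        rcases hq with rfl | rfl
        · refine ⟨?_, ?_, ?_⟩ <;> simp <;> omega
        · refine ⟨?_, ?_, ?_⟩ <;> simp <;> omega
      rw [← Finset.sum_subset hsub]
      · rw [Finset.sum_pair (by simp; omega)]
        simp only [hmt1, hmt2 1 (by omega)]
        simp only [brk, hcc]
        simp only [map_smul, map_sub, LinearMap.smul_apply, LinearMap.sub_apply, ← smul_sub,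
          ← smul_add]
        rw [smul_smul, mul_inv_cancel₀ hp0, one_smul]
        abel
      · intro q hq1 hq2
        rw [Finset.mem_filter, Finset.HasAntidiagonal.mem_antidiagonal] at hq1
        simp only [Finset.mem_insert, Finset.mem_singleton, Prod.ext_iff, not_or, not_and] at hq2
        rw [hmt2 q.1 (by omega), hmt2 q.2 (by omega), sub_self]
    refine ⟨y', ?_⟩
    have hb : brk (fun a b => m 1 a b) (fun a b => cc a b) (C.i a₁) (C.i a₂) (C.i a₃) =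
        p⁻¹ • (dl (fun a b => m (N + 1 + 1) a b) (C.i a₁) (C.i a₂) (C.i a₃) - C.i e) := by
      rw [hsum, smul_smul, inv_mul_cancel₀ hp0, one_smul]
    rw [← hy', tgt_dl hc', hb, ← he1, ← smul_add]
    congr 1
    abel

end Pool.Agent.PSS.H41
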