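import Pool.Agent.Helper41_PSS.NKW
import Pool.Agent.Helper39_AT6.LWD
import Pool.Agent.Helper75_PFC.Cjl
import Pool.Agent.Helper84_AT8.MIN

/-!
# Squad PSS, row JNW
-/

set_option autoImplicit false

open scoped BigOperators

noncomputable section

namespace Pool.Agent.PSS.H41

open Pool.Agent.Helper51_AWC Pool.Agent.Helper79_WRA Pool.Agent.PP Pool.Agent.PP.KF
open Pool.Agent.PP.K9 Pool.Agent.PP.K9.H97 Pool.Agent.PP.H75 Pool.Agent.PP.T3 Pool.Agent.PP.T2
open Pool.Agent.PP.T8 (pw)
open Pool.Agent.PFC (Jd)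

attribute [local instance] Ideal.Quotient.field

section tools

variable {F G : Type} [Field F] [Group G] [Finite G]

omit [Finite G] in
theorem br_sub {N V : Subgroup G} (hVN : V ≤ N) (a : G → F) :
    br (V.subgroupOf N) (fun t : N => a t) = fun t : N => br V a t := by
  funext t
  by_cases ht : (t : G) ∈ Subgroup.centralizer (V : Set G)
  · rw [H66.br_of_mem ht, H66.br_of_mem ((cent_sub hVN t).2 ht)]
  · rw [H66.br_of_not_mem ht, H66.br_of_not_mem (fun h => ht ((cent_sub hVN t).1 h))]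

omit [Finite G] in
theorem br_br (V : Subgroup G) (a : G → F) : br V (br V a) = br V a := by
  funext t
  by_cases ht : t ∈ Subgroup.centralizer (V : Set G)
  · rw [H66.br_of_mem ht]
  · rw [H66.br_of_not_mem ht, H66.br_of_not_mem ht]

omit [Finite G] in
theorem cent_sup (A B : Subgroup G) (x : G) :
    x ∈ Subgroup.centralizer ((A ⊔ B : Subgroup G) : Set G) ↔
      x ∈ Subgroup.centralizer (A : Set G) ∧ x ∈ Subgroup.centralizer (B : Set G) := by
  constructor
  · intro h
    rw [Subgroup.mem_centralizer_iff] at h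
    exact ⟨Subgroup.mem_centralizer_iff.2 fun y hy => h y (Subgroup.mem_sup_left hy),
      Subgroup.mem_centralizer_iff.2 fun y hy => h y (Subgroup.mem_sup_right hy)⟩
  · rintro ⟨h1, h2⟩
    have h3 : A ⊔ B ≤ Subgroup.centralizer ({x} : Set G) := by
      refine sup_le (fun y hy => ?_) (fun y hy => ?_)
      · rw [Subgroup.mem_centralizer_singleton_iff]
        exact (Subgroup.mem_centralizer_iff.1 h1 y hy)
      · rw [Subgroup.mem_centralizer_singleton_iff]
        exact (Subgroup.mem_centralizer_iff.1 h2 y hy)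
    rw [Subgroup.mem_centralizer_iff]
    intro y hy
    exact (Subgroup.mem_centralizer_singleton_iff.1 (h3 hy))

theorem pw_ext0 (N : Subgroup G) (b : N → F) (n : ℕ) :
    pw (H75.ext0 N b) n = H75.ext0 N (pw b n) := by
  induction n with
  | zero =>
    funext x
    change dl F (1 : G) x = H75.ext0 N (dl F (1 : N)) x
    by_cases hx : x ∈ N
    · have e := H75.ext0_apply N (dl F (1 : N)) ⟨x, hx⟩
      change H75.ext0 N (dl F (1 : N)) x = _ at e
      rw [e]
      unfold dl
      by_cases h1 : x = 1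
      · rw [if_pos h1, if_pos (Subtype.ext h1)]
      · rw [if_neg h1, if_neg]
        intro h
        exact h1 (congrArg Subtype.val h)
    · rw [H75.ext0_supp N _ x hx]
      unfold dl
      rw [if_neg]
      rintro rfl
      exact hx (one_mem _)
  | succ n ih =>
    change mulF (H75.ext0 N b) (pw (H75.ext0 N b) n) = H75.ext0 N (mulF b (pw b n))
    rw [ih, H75.ext0_mulF]

omit [Finite G] in
theorem char_pow {ℓ : ℕ} [Fact ℓ.Prime] [CharP F ℓ] {X J : MonoidAlgebra F G} (hJ : J * J = J)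
    (h1 : J * X = X) (h2 : X * J = X) {k : ℕ} (hk : (X - J) ^ k = 0) : ∃ m : ℕ, X ^ ℓ ^ m = J := by
  have hp : 1 < ℓ := (Fact.out : ℓ.Prime).one_lt
  have hch : CharP (MonoidAlgebra F G) ℓ :=
    charP_of_injective_algebraMap (algebraMap F (MonoidAlgebra F G)).injective ℓ
  refine ⟨k, ?_⟩
  have hle : k ≤ ℓ ^ k := (Nat.lt_pow_self hp).le
  have hc : Commute (X - J) J := by
    change (X - J) * J = J * (X - J)
    rw [sub_mul, mul_sub, h1, h2]
  have e : X = (X - J) + J := by abel
  calc X ^ ℓ ^ k = ((X - J) + J) ^ ℓ ^ k := by rw [← e]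
    _ = (X - J) ^ ℓ ^ k + J ^ ℓ ^ k := add_pow_char_pow_of_commute _ _ hc
    _ = J := by
      rw [pow_eq_zero_of_le hle hk, zero_add, T8.H84.idem_pow hJ (by positivity)]

end tools

section main

variable {F G : Type} [Field F] [Group G] [Finite G] {ℓ : ℕ} [Fact ℓ.Prime]

/-- the local block condition -/
theorem jnw_lb (hF : GoodF ℓ F) {V W : Subgroup G} (hV : IsPGroup ℓ V)
    (hab : ∀ a ∈ V, ∀ b ∈ V, a * b = b * a) (hWV : W ≤ V) {γ : G → F}
    (hg : Bx (Subgroup.centralizer (V : Set G)) γ) {j : G → F}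
    (hlw : ∀ P : Subgroup G, P ≤ V → ∃ f, T6.Lw V γ P f ∧ mulF (br P j) f = br P j)
    (Q : Subgroup (Subgroup.normalizer (W : Set G)))
    (hQ : Q ≤ V.subgroupOf (Subgroup.normalizer (W : Set G)))
    (f : Subgroup.normalizer (W : Set G) → F)
    (hf : T6.Lw (V.subgroupOf (Subgroup.normalizer (W : Set G)))
      (fun t : Subgroup.normalizer (W : Set G) => γ t) Q f) :
    mulF (br Q (fun t : Subgroup.normalizer (W : Set G) => br W j t)) f =
      br Q (fun t : Subgroup.normalizer (W : Set G) => br W j t) := by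
  have hCWN : Subgroup.centralizer (W : Set G) ≤ Subgroup.normalizer (W : Set G) :=
    Subgroup.centralizer_le_normalizer _
  have hCVW : Subgroup.centralizer (V : Set G) ≤ Subgroup.centralizer (W : Set G) :=
    Subgroup.centralizer_le hWV
  have hCVN := hCVW.trans hCWN
  have hVCV : V ≤ Subgroup.centralizer (V : Set G) := fun a ha =>
    Subgroup.mem_centralizer_iff.2 fun b hb => hab b hb a ha
  have hVN : V ≤ Subgroup.normalizer (W : Set G) := (hVCV.trans hCVN)
  have hWN : W ≤ Subgroup.normalizer (W : Set G) := hWV.trans hVN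
  -- `Q` as a subgroup of `G`
  obtain ⟨Q₁, hQ₁V, rfl⟩ : ∃ Q₁ : Subgroup G, Q₁ ≤ V ∧
      Q = Q₁.subgroupOf (Subgroup.normalizer (W : Set G)) := by
    refine ⟨Q.map (Subgroup.normalizer (W : Set G)).subtype, ?_, ?_⟩
    · rintro x ⟨y, hy, rfl⟩
      exact Subgroup.mem_subgroupOf.1 (hQ hy)
    · exact (Subgroup.comap_map_eq_self_of_injective
        (Subgroup.normalizer (W : Set G)).subtype_injective Q).symm
  have hQ₁N := hQ₁V.trans hVN
  have hPV : Q₁ ⊔ W ≤ V := sup_le hQ₁V hWV
  have hPp : IsPGroup ℓ (Q₁ ⊔ W : Subgroup G) := hV.to_le hPV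
  have hWp : IsPGroup ℓ W := hV.to_le hWV
  obtain ⟨f₂, hf₂, hjf⟩ := hlw _ hPV
  -- the support of `f`
  set H : Subgroup (Subgroup.normalizer (W : Set G)) :=
    Subgroup.centralizer ((Q₁.subgroupOf (Subgroup.normalizer (W : Set G)) :
      Subgroup (Subgroup.normalizer (W : Set G))) :
      Set (Subgroup.normalizer (W : Set G))) with hH
  have hHiff : ∀ t : Subgroup.normalizer (W : Set G), t ∈ H ↔
      (t : G) ∈ Subgroup.centralizer (Q₁ : Set G) := fun t => cent_sub hQ₁N t
  set W' := W.subgroupOf (Subgroup.normalizer (W : Set G)) with hW'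
  have hW'H : W' ≤ H := by
    intro w hw
    rw [hHiff, Subgroup.mem_centralizer_iff]
    intro q hq
    exact hab q (hQ₁V hq) _ (hWV (Subgroup.mem_subgroupOf.1 hw))
  have hW'n : W'.Normal := Subgroup.normal_in_normalizer
  have hRn : (W'.subgroupOf H).Normal := inferInstance
  have hW'p : IsPGroup ℓ W' := hWp.comap_of_injective _
    (Subgroup.normalizer (W : Set G)).subtype_injective
  have hRp : IsPGroup ℓ (W'.subgroupOf H) := hW'p.comap_of_injective _ H.subtype_injective
  have hsup : ∀ t : Subgroup.normalizer (W : Set G), t ∈ H →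
      (t : G) ∉ Subgroup.centralizer (W : Set G) → f t = 0 := by
    intro t ht htW
    refine sgw ℓ F hF H (W'.subgroupOf H) hRn hRp (fun t : H => f t) hf.blk.ix.idem ⟨t, ht⟩ ?_
    intro hc
    apply htW
    have h1 := (cent_sub hW'H (⟨t, ht⟩ : H)).1 hc
    exact (cent_sub hWN t).1 h1
  -- `f` extended by zero
  set g : G → F := H75.ext0 (Subgroup.normalizer (W : Set G)) f with hgd
  have hgN : (fun t : Subgroup.normalizer (W : Set G) => g t) = f :=
    funext (H75.ext0_apply _ f)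
  have hPN : Subgroup.centralizer ((Q₁ ⊔ W : Subgroup G) : Set G) ≤
      Subgroup.normalizer (W : Set G) := fun x hx => hCWN ((cent_sup Q₁ W x).1 hx).2
  have hgs : ∀ x, x ∉ Subgroup.centralizer ((Q₁ ⊔ W : Subgroup G) : Set G) → g x = 0 := by
    intro x hx
    by_cases hxN : x ∈ Subgroup.normalizer (W : Set G)
    · have e := congrFun hgN ⟨x, hxN⟩
      change g x = _ at e
      rw [e]
      by_cases hxH : (⟨x, hxN⟩ : Subgroup.normalizer (W : Set G)) ∈ H
      · refine hsup _ hxH fun hxW => hx ?_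
        exact (cent_sup Q₁ W x).2 ⟨(hHiff _).1 hxH, hxW⟩
      · exact hf.blk.supp _ hxH
    · exact H75.ext0_supp _ f x hxN
  have hgi : Ix (Subgroup.centralizer ((Q₁ ⊔ W : Subgroup G) : Set G)) g := by
    refine ⟨hgs, ?_, ?_⟩
    · intro x y
      have hy : (⟨y, hPN y.2⟩ : Subgroup.normalizer (W : Set G)) ∈ H :=
        (hHiff _).2 ((cent_sup Q₁ W y).1 y.2).1
      have h1 := (cj_eq_iff _ f).1 (hf.blk.ix.inv hy) ⟨x, hPN x.2⟩
      have e1 := congrFun hgN (⟨y, hPN y.2⟩ * ⟨x, hPN x.2⟩ * ⟨y, hPN y.2⟩⁻¹)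
      have e2 := congrFun hgN ⟨x, hPN x.2⟩
      rw [← e1, ← e2] at h1
      exact h1
    · rw [← mulF_res _ _ hgs]
      have h1 : mulF g g = g := by
        rw [hgd, ← H75.ext0_mulF, hf.blk.ix.mul]
      rw [h1]
  -- `f₂ g = f₂`
  have hbg : mulF (br V g) γ = γ := by
    apply eq_of_res (N := Subgroup.normalizer (W : Set G))
      (mulF_supp _ (fun x hx => H66.br_of_not_mem (fun h => hx (hCVN h)))
        (fun x hx => hg.supp x (fun h => hx (hCVN h))))
      (fun x hx => hg.supp x (fun h => hx (hCVN h)))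
    rw [mulF_res _ _ (fun x hx => H66.br_of_not_mem (fun h => hx (hCVN h))), ← br_sub hVN, hgN]
    exact hf.gam
  have hVP : V ≤ Subgroup.centralizer ((Q₁ ⊔ W : Subgroup G) : Set G) :=
    hVCV.trans (Subgroup.centralizer_le hPV)
  have hff : mulF f₂ g = f₂ := by
    rcases hf₂.blk.dich' hgi with h | h
    · exact h
    · exfalso
      apply hg.ne
      have h1 := T6.H39.br_mulX hF hV hVP hf₂.blk.ix hgi
      rw [h, H88.br_zero] at h1
      calc γ = mulF (br V f₂) (mulF (br V g) γ) := by rw [hbg, hf₂.gam]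
        _ = mulF (mulF (br V f₂) (br V g)) γ := (mulF_assoc _ _ _).symm
        _ = 0 := by rw [← h1, mulF_zero_left]
  have hjg : mulF (br (Q₁ ⊔ W) j) g = br (Q₁ ⊔ W) j := by
    calc mulF (br (Q₁ ⊔ W) j) g = mulF (mulF (br (Q₁ ⊔ W) j) f₂) g := by rw [hjf]
      _ = mulF (br (Q₁ ⊔ W) j) (mulF f₂ g) := mulF_assoc _ _ _
      _ = br (Q₁ ⊔ W) j := by rw [hff, hjf]
  have hbQ : br (Q₁.subgroupOf (Subgroup.normalizer (W : Set G)))
      (fun t : Subgroup.normalizer (W : Set G) => br W j t) =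
      fun t : Subgroup.normalizer (W : Set G) => br (Q₁ ⊔ W) j t := by
    rw [br_sub hQ₁N]
    funext t
    by_cases h1 : (t : G) ∈ Subgroup.centralizer (Q₁ : Set G)
    · rw [H66.br_of_mem h1]
      by_cases h2 : (t : G) ∈ Subgroup.centralizer (W : Set G)
      · rw [H66.br_of_mem h2, H66.br_of_mem ((cent_sup Q₁ W t).2 ⟨h1, h2⟩)]
      · rw [H66.br_of_not_mem h2,
          H66.br_of_not_mem (fun h => h2 ((cent_sup Q₁ W t).1 h).2)]
    · rw [H66.br_of_not_mem h1, H66.br_of_not_mem (fun h => h1 ((cent_sup Q₁ W t).1 h).1)]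
  rw [hbQ]
  conv_lhs => rw [← hgN]
  rw [← mulF_res _ _ (fun x hx => H66.br_of_not_mem (fun h => hx (hPN h))), hjg]

/-- the local condition -/
theorem jnw_lo (hF : GoodF ℓ F) {V W : Subgroup G} (hV : IsPGroup ℓ V)
    (hab : ∀ a ∈ V, ∀ b ∈ V, a * b = b * a) (hWV : W ≤ V) {j : G → F} (hj : mulF j j = j)
    (hjv : ∀ v ∈ V, ∀ x, j (v * x * v⁻¹) = j x)
    (hlo : ∀ w : G → F, (∀ v ∈ V, ∀ x, w (v * x * v⁻¹) = w x) → mulF j w = w → mulF w j = w →
      ∃ n : ℕ, 0 < n ∧ (pw w n = j ∨ pw w n = 0))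
    (w : Subgroup.normalizer (W : Set G) → F)
    (hwv : ∀ v ∈ V.subgroupOf (Subgroup.normalizer (W : Set G)), ∀ x, w (v * x * v⁻¹) = w x)
    (hw1 : mulF (fun t : Subgroup.normalizer (W : Set G) => br W j t) w = w)
    (hw2 : mulF w (fun t : Subgroup.normalizer (W : Set G) => br W j t) = w) :
    ∃ n : ℕ, 0 < n ∧ (pw w n = (fun t : Subgroup.normalizer (W : Set G) => br W j t) ∨
      pw w n = 0) := by
  have hch := hF.char
  have hCWN : Subgroup.centralizer (W : Set G) ≤ Subgroup.normalizer (W : Set G) :=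
    Subgroup.centralizer_le_normalizer _
  have hCVW : Subgroup.centralizer (V : Set G) ≤ Subgroup.centralizer (W : Set G) :=
    Subgroup.centralizer_le hWV
  have hVCV : V ≤ Subgroup.centralizer (V : Set G) := fun a ha =>
    Subgroup.mem_centralizer_iff.2 fun b hb => hab b hb a ha
  have hVCW : V ≤ Subgroup.centralizer (W : Set G) := hVCV.trans hCVW
  have hVN : V ≤ Subgroup.normalizer (W : Set G) := hVCW.trans hCWN
  have hWN : W ≤ Subgroup.normalizer (W : Set G) := hWV.trans hVN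
  have hWp : IsPGroup ℓ W := hV.to_le hWV
  set W' := W.subgroupOf (Subgroup.normalizer (W : Set G)) with hW'
  have hW'n : W'.Normal := Subgroup.normal_in_normalizer
  have hW'p : IsPGroup ℓ W' := hWp.comap_of_injective _
    (Subgroup.normalizer (W : Set G)).subtype_injective
  set j' : Subgroup.normalizer (W : Set G) → F := fun t => br W j t with hj'
  have hjW : H66.Inv W j := fun p hp t => hjv p (hWV hp) t
  have hsW : ∀ x, x ∉ Subgroup.normalizer (W : Set G) → br W j x = 0 := fun x hx =>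
    H66.br_of_not_mem (fun h => hx (hCWN h))
  have hj'j' : mulF j' j' = j' := by
    rw [hj', ← mulF_res _ _ hsW, ← H66.br_mulF hF hWp hjW hjW, hj]
  -- conjugation by `V` preserves `C(W)`
  have hcv : ∀ v ∈ V, ∀ x, v * x * v⁻¹ ∈ Subgroup.centralizer (W : Set G) ↔
      x ∈ Subgroup.centralizer (W : Set G) := fun v hv x => H20.cent_conj_iff (hVN hv)
  have hbrj' : br W' j' = j' := by
    rw [hW', hj', br_sub hWN, br_br]
  have hj'W : H66.Inv W' j' := by
    intro p hp t
    have hp' : (p : G) ∈ W := Subgroup.mem_subgroupOf.1 hp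
    change br W j ((p : G) * t * (p : G)⁻¹) = br W j t
    by_cases ht : (t : G) ∈ Subgroup.centralizer (W : Set G)
    · rw [H66.br_of_mem ht, H66.br_of_mem ((hcv p (hWV hp') t).2 ht)]
      exact hjv p (hWV hp') t
    · rw [H66.br_of_not_mem ht, H66.br_of_not_mem (fun h => ht ((hcv p (hWV hp') t).1 h))]
  have hwW : H66.Inv W' w := fun p hp t => hwv p (Subgroup.mem_subgroupOf.2
    (hWV (Subgroup.mem_subgroupOf.1 hp))) t
  set b := br W' w with hb
  have hb1 : mulF j' b = b := by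
    have h := congrArg (br W') hw1
    rw [H66.br_mulF hF hW'p hj'W hwW, hbrj'] at h
    exact h
  have hb2 : mulF b j' = b := by
    have h := congrArg (br W') hw2
    rw [H66.br_mulF hF hW'p hwW hj'W, hbrj'] at h
    exact h
  -- the extension
  set B : G → F := H75.ext0 (Subgroup.normalizer (W : Set G)) b with hB
  have hBN : (fun t : Subgroup.normalizer (W : Set G) => B t) = b :=
    funext (H75.ext0_apply _ b)
  have hBW : br W B = B := by
    funext x
    by_cases hx : x ∈ Subgroup.centralizer (W : Set G)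
    · rw [H66.br_of_mem hx]
    · rw [H66.br_of_not_mem hx]
      by_cases hxN : x ∈ Subgroup.normalizer (W : Set G)
      · have e := congrFun hBN ⟨x, hxN⟩
        change B x = _ at e
        rw [e, hb, H66.br_of_not_mem]
        intro h
        exact hx ((cent_sub hWN ⟨x, hxN⟩).1 h)
      · exact (H75.ext0_supp _ b x hxN).symm
  have hBV : H66.Inv V B := by
    intro v hv x
    by_cases hx : x ∈ Subgroup.normalizer (W : Set G)
    · have e1 := congrFun hBN ⟨x, hx⟩
      have e2 := congrFun hBN (⟨v, hVN hv⟩ * ⟨x, hx⟩ * ⟨v, hVN hv⟩⁻¹)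
      change B x = _ at e1
      change B (v * x * v⁻¹) = _ at e2
      rw [e1, e2, hb]
      have hvx : (⟨v, hVN hv⟩ * ⟨x, hx⟩ * ⟨v, hVN hv⟩⁻¹ : Subgroup.normalizer (W : Set G)) ∈
          Subgroup.centralizer (W' : Set (Subgroup.normalizer (W : Set G))) ↔
          (⟨x, hx⟩ : Subgroup.normalizer (W : Set G)) ∈
          Subgroup.centralizer (W' : Set (Subgroup.normalizer (W : Set G))) := by
        rw [cent_sub hWN, cent_sub hWN]
        exact hcv v hv x
      by_cases hc : (⟨x, hx⟩ : Subgroup.normalizer (W : Set G)) ∈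
          Subgroup.centralizer (W' : Set (Subgroup.normalizer (W : Set G)))
      · rw [H66.br_of_mem hc, H66.br_of_mem (hvx.2 hc)]
        exact hwv ⟨v, hVN hv⟩ (Subgroup.mem_subgroupOf.2 hv) ⟨x, hx⟩
      · rw [H66.br_of_not_mem hc, H66.br_of_not_mem (fun h => hc (hvx.1 h))]
    · rw [hB, H75.ext0_supp _ b x hx, H75.ext0_supp]
      intro h
      apply hx
      have := Subgroup.mul_mem _ (Subgroup.mul_mem _ (Subgroup.inv_mem _ (hVN hv)) h) (hVN hv)
      have e : v⁻¹ * (v * x * v⁻¹) * v = x := by group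
      rwa [e] at this
  have hjV : H66.Inv V j := hjv
  have hBWi : H66.Inv W B := fun p hp t => hBV p (hWV hp) t
  obtain ⟨n, hn, hpw⟩ := hlo (mulF j (mulF B j)) (hjV.mulF (hBV.mulF hjV))
    (by rw [← mulF_assoc, hj]) (by rw [mulF_assoc, mulF_assoc, hj])
  have hbrw : br W (mulF j (mulF B j)) = B := by
    rw [H66.br_mulF hF hWp hjW (hBWi.mulF hjW), H66.br_mulF hF hWp hBWi hjW, hBW]
    have e1 : br W j = H75.ext0 (Subgroup.normalizer (W : Set G)) j' :=
      (H75.ext0_res _ hsW).symm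
    rw [e1, hB, ← H75.ext0_mulF, ← H75.ext0_mulF, hb2, hb1]
  have hpB : br W (pw (mulF j (mulF B j)) n) = pw B n := by
    rw [T8.H84.br_pw hF hWp (hjW.mulF (hBWi.mulF hjW)), hbrw]
  have hpb : pw b n = j' ∨ pw b n = 0 := by
    have e2 : (fun t : Subgroup.normalizer (W : Set G) => pw B n t) = pw b n := by
      rw [hB, pw_ext0]
      exact funext (H75.ext0_apply _ _)
    rcases hpw with h | h
    · left
      rw [← e2, ← hpB, h]
    · right
      rw [← e2, ← hpB, h, H88.br_zero]
      rfl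
  have hbw : br W' (pw w n) = pw b n := T8.H84.br_pw hF hW'p hwW n
  have hwn := T8.H84.inv_pw hwW n
  rcases hpb with h | h
  · obtain ⟨k, hk, hk'⟩ := nkw ℓ F hF _ W' hW'n hW'p (pw w n - j') (by
      intro r hr x
      rw [Pi.sub_apply, Pi.sub_apply, hwn r hr x, hj'W r hr x]) (by
      have e3 : br W' (pw w n - j') = br W' (pw w n) - br W' j' := by
        funext x
        by_cases hx : x ∈ Subgroup.centralizer (W' : Set (Subgroup.normalizer (W : Set G)))
        · rw [Pi.sub_apply, H66.br_of_mem hx, H66.br_of_mem hx, H66.br_of_mem hx, Pi.sub_apply]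
        · rw [Pi.sub_apply, H66.br_of_not_mem hx, H66.br_of_not_mem hx, H66.br_of_not_mem hx,
            sub_zero]
      rw [e3, hbw, h, hbrj', sub_self])
    have hJ : ma j' * ma j' = ma j' := by rw [← ma_mul, hj'j']
    have hX1 : ma j' * ma w ^ n = ma w ^ n := by
      obtain ⟨n', rfl⟩ := Nat.exists_eq_succ_of_ne_zero hn.ne'
      rw [pow_succ', ← mul_assoc, ← ma_mul, hw1]
    have hX2 : ma w ^ n * ma j' = ma w ^ n := by
      obtain ⟨n', rfl⟩ := Nat.exists_eq_succ_of_ne_zero hn.ne'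
      rw [pow_succ, mul_assoc, ← ma_mul, hw2]
    obtain ⟨m, hm⟩ := char_pow (ℓ := ℓ) hJ hX1 hX2 (k := k) (by
      rw [← T8.H84.ma_pw, ← ma_sub, ← T8.H84.ma_pw, hk', ma_zero])
    refine ⟨n * ℓ ^ m, Nat.mul_pos hn (pow_pos (Fact.out : ℓ.Prime).pos m), Or.inl ?_⟩
    apply ma_injective
    rw [T8.H84.ma_pw, pow_mul, hm]
  · obtain ⟨k, hk, hk'⟩ := nkw ℓ F hF _ W' hW'n hW'p (pw w n) hwn (by rw [hbw, h])
    refine ⟨n * k, Nat.mul_pos hn hk, Or.inr ?_⟩
    apply ma_injective
    rw [T8.H84.ma_pw, pow_mul, ← T8.H84.ma_pw, ← T8.H84.ma_pw, hk']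

end main

/-- row JNW -/
theorem jnw : JnwStmt := by
  intro ℓ _ M _ hM G _ _ e V γ hL W hWV c hc j hj
  have hF : GoodF ℓ (FF M) := H50.fld ℓ Fact.out M hM
  have hCWN : Subgroup.centralizer (W : Set G) ≤ Subgroup.normalizer (W : Set G) :=
    Subgroup.centralizer_le_normalizer _
  have hCVW : Subgroup.centralizer (V : Set G) ≤ Subgroup.centralizer (W : Set G) :=
    Subgroup.centralizer_le hWV
  have hCVN := hCVW.trans hCWN
  have hVCV : V ≤ Subgroup.centralizer (V : Set G) := fun a ha =>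
    Subgroup.mem_centralizer_iff.2 fun b hb => hL.ab b hb a ha
  have hVN : V ≤ Subgroup.normalizer (W : Set G) := hVCV.trans hCVN
  have hWp : IsPGroup ℓ W := hL.tp.pg.to_le hWV
  have hjW : H66.Inv W j := fun p hp t => hj.iv p (hWV hp) t
  refine ⟨?_, ?_, ?_, ?_, ?_⟩
  · rw [← mulF_res _ _ (fun x hx => H66.br_of_not_mem (fun h => hx (hCWN h))),
      ← H66.br_mulF hF hWp hjW hjW, hj.id]
  · intro v hv x
    have hv' : (v : G) ∈ V := Subgroup.mem_subgroupOf.1 hv
    have hcv := H20.cent_conj_iff (x := (x : G)) (hVN hv')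
    change br W j ((v : G) * x * (v : G)⁻¹) = br W j x
    by_cases ht : (x : G) ∈ Subgroup.centralizer (W : Set G)
    · rw [H66.br_of_mem ht, H66.br_of_mem (hcv.2 ht)]
      exact hj.iv v hv' x
    · rw [H66.br_of_not_mem ht, H66.br_of_not_mem (fun h => ht (hcv.1 h))]
  · intro Q hQ f hf
    refine jnw_lb hF hL.tp.pg hL.ab hWV hL.gam ?_ Q hQ f hf
    intro P hP
    obtain ⟨f, hf⟩ := (T6.H39.lwd ℓ M hM G e V γ hL P hP).1
    exact ⟨f, hf, hj.lb P hP f hf⟩
  · intro κ hκ
    have h1 := PFC.H75.IrrE_equiv (M := M) (T3.H85.cequiv hVN hCVN).symm hc.gam.blk.1.1 hκ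
    have h2 := hj.nz _ h1
    rw [← finsum_comp_equiv (T3.H85.cequiv hVN hCVN).symm.toEquiv]
    have e : ∀ t : Subgroup.centralizer (V : Set G),
        br W j (((T3.H85.cequiv hVN hCVN).symm t : Subgroup.normalizer (W : Set G)) : G) =
        j t := fun t => H66.br_of_mem (hCVW t.2)
    have e2 : (∑ᶠ t : Subgroup.centralizer (V : Set G),
        br W j (((T3.H85.cequiv hVN hCVN).symm t : Subgroup.normalizer (W : Set G)) : G) *
        rr M (κ ((T3.H85.cequiv hVN hCVN).symm t))) =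
        ∑ᶠ t : Subgroup.centralizer (V : Set G), j t *
        rr M (κ ((T3.H85.cequiv hVN hCVN).symm t)) := finsum_congr fun t => by rw [e t]
    exact fun h => h2 (e2.symm.trans h)
  · intro w hwv hw1 hw2
    exact jnw_lo hF hL.tp.pg hL.ab hWV hj.id hj.iv hj.lo w hwv hw1 hw2

end Pool.Agent.PSS.H41
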