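import Pool.Agent.PSS.StmtsS1e

/-!
# Squad PSS, rows CEF and FRF
-/

set_option autoImplicit false

open scoped BigOperators TensorProduct

noncomputable section

namespace Pool.Agent.PSS.H41

open Pool.Agent.PFD.D2 (Cdv FibG wittCdv)
open Pool.Agent.PFD.D2b (FrR)
open Dm (cst)

theorem cef (hLDA : LdaStmt) (hUZL : UzlStmt) (hCEN : CenStmt) (hRMP : RmpStmt) : CefStmt := by
  intro ℓ _ F V E A₀ κ Ω _ _ _ _ _ _ _ _ _ _ _ _ φ W z α₀ lam₀ x₀ y₀ b₀ c₀ u₀ D₀ hrf hfr hst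
    hvz hu0 z₀ hz₀
  obtain ⟨A, _, _, _, _, f, α, lam, x, y, b, c, u, D, hL, hu, hm, hH⟩ :=
    hLDA ℓ F V E A₀ κ Ω φ W z α₀ lam₀ x₀ y₀ b₀ c₀ u₀ D₀ hrf hfr hst hvz hu0
  obtain ⟨z', hz', hzq⟩ := (hUZL (WittVector ℓ F) F V A₀ A κ Ω (wittCdv ℓ F) α₀ lam₀ x₀ y₀ b₀ c₀
    f α lam x y b c u₀ hL hu0).2.2 z₀ hz₀
  obtain ⟨Z, hZ, hZ0⟩ := hCEN (WittVector ℓ F) W A (aw α W) D hH z' hz'
  obtain ⟨ψ, hψ, -, -, hs, -⟩ := hRMP (WittVector ℓ F) F W A A₀ (aw α W) (aw α₀ W) D D₀ f.q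
    (wittCdv ℓ F).κ f.sc (fun w => hL.qa w) hm
  refine ⟨ψ Z, ?_, ?_⟩
  · intro a
    obtain ⟨a', rfl⟩ := hs f.surj a
    rw [← map_mul, hZ, map_mul]
  · rw [← D.of_sq Z, hψ, D₀.sq_of, hZ0, hzq]

theorem frf (hLDA : LdaStmt) (hRWV : RwvStmt) (hFMX : FmxStmt) (hFSR : FsrStmt)
    (hRED : RedStmt) : FrfStmt := by
  intro ℓ _ F V E A₀ κ Ω _ _ _ _ _ _ _ _ _ _ _ _ φ W _ z α₀ lam₀ x₀ y₀ b₀ c₀ u₀ D₀ hrf hfr hst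
    hvz hu0
  obtain ⟨A, _, _, _, _, f, α, lam, x, y, b, c, u, D, hL, hu, hm, hH⟩ :=
    hLDA ℓ F V E A₀ κ Ω φ W z α₀ lam₀ x₀ y₀ b₀ c₀ u₀ D₀ hrf hfr hst hvz hu0
  have h1 := hRWV (WittVector ℓ F) V E A κ φ W z α lam x y hvz hL.rf
  obtain ⟨Λ, hΛ1, hΛ2⟩ := hFMX (WittVector ℓ F) W A _ (aw α W) D lam _ _ hH h1
  obtain ⟨y', hy1, -⟩ := hFSR (WittVector ℓ F) W A _ (aw α W) D lam _ _ Λ h1 hΛ1 hΛ2
  obtain ⟨ψ, Λ₀, hψ, -, -, hΛ₀, hRF⟩ := hRED (WittVector ℓ F) F V A A₀ _ W α (wittCdv ℓ F) f α₀ D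
    D₀ Λ _ _ hL.qa hm hy1
  refine ⟨Λ₀, _, inferInstance, _, _, hRF, ?_⟩
  intro g
  choose g' hg' using fun n => f.surj (g n)
  have e : D₀.of g = ψ (D.of g') := by
    rw [hψ]
    congr 1
    funext n
    exact (hg' n).symm
  rw [e, hΛ₀, ← PowerSeries.coeff_zero_eq_constantCoeff_apply, PowerSeries.coeff_map,
    PowerSeries.coeff_zero_eq_constantCoeff_apply, hΛ2, hL.ql, hg']

end Pool.Agent.PSS.H41
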