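import Pool.Agent.PSS.StmtsS1e
import Pool.Agent.Helper68_PFD.CNR
import Pool.Agent.Helper35_PFD.BFS

/-!
# Squad PSS, row DZD
-/

set_option autoImplicit false

open scoped BigOperators TensorProduct

noncomputable section

namespace Pool.Agent.PSS.H41

open Pool.Agent.PFC (tw IsTv)
open Pool.Agent.PFD.D2 (Cdv FibG wittCdv)
open Pool.Agent.PFD.D2b (FrR)
open Dm (cst)

theorem dzd (hDFM : DfmStmt) (hCEF : CefStmt) (hPSC : PscStmt) : DzdStmt := by
  intro ℓ _ F V E A A' F' κ _ _ _ _ _ _ _ _ _ _ _ _ _ _ _ _ _ φ W z α α' lam x y u hPer hRF hu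
    hVz df
  obtain ⟨Ω, _, _, b, c, hfr, hst⟩ := hPer
  have hstE : StE φ Ω := by
    intro ω u v h
    obtain ⟨e, S, hS⟩ := hst ω
    have h1 : ((u, v) : V × V) ∈ MulAction.stabilizer (V × V) ω := h
    rw [hS] at h1
    obtain ⟨s, -, hs⟩ := h1
    have e1 : φ e s = u := congrArg Prod.fst hs
    have e2 : s = v := congrArg Prod.snd hs
    exact ⟨e, by rw [← e1, ← e2]⟩
  -- the restriction to `W × W`
  obtain ⟨D₀, θ, hθw, hθq⟩ : ∃ (D₀ : Dm F (aw α W)) (θ : D₀.R ≃ₐ[PowerSeries F] A'),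
      (∀ w, θ (D₀.w w) = α' w) ∧ ∀ g, df.q (θ (D₀.of g)) = g 0 := by
    let _ : MulAction (W × W) Ω := MulAction.compHom Ω (W.subtype.prodMap W.subtype)
    refine hDFM F W A A' Ω (aw α W) α' b c ⟨?_, ?_, hfr.2.2⟩ df
    · intro g t
      exact hfr.1 ((g.1 : V), (g.2 : V)) t
    · intro g t n
      exact hfr.2.1 ((g.1 : V), (g.2 : V)) t n
  have hlift : ∀ z₀ : A, (∀ a, z₀ * a = a * z₀) →
      ∃ Z : A', (∀ a, Z * a = a * Z) ∧ df.q Z = z₀ := by
    intro z₀ hz₀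
    obtain ⟨Z, hZ, hZ0⟩ := hCEF ℓ F V E A κ Ω φ W z α lam x y b c u D₀ hRF hfr hstE hVz hu z₀ hz₀
    refine ⟨θ Z, ?_, ?_⟩
    · intro a
      have h := congrArg θ (hZ (θ.symm a))
      rw [map_mul, map_mul, AlgEquiv.apply_symm_apply] at h
      exact h
    · rw [← D₀.of_sq Z, hθq, hZ0]
  obtain ⟨cv, hπ, hκ⟩ := hPSC F
  let fb : FibG A' A cv :=
    { q := df.q
      sc := fun r => by rw [df.sc, hκ]
      surj := df.surj
      ker := fun x hx => by rw [hπ]; exact df.ker x hx }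
  have h1 := Pool.Agent.PFD.D4.H68.cnr (PowerSeries F) F A A' cv fb hlift
  have h2 := Pool.Agent.PFD.D4.H35.cnk (PowerSeries F) F' A'
  rw [h1, h2]

end Pool.Agent.PSS.H41
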