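import Pool.Agent.PSS.StmtsS1b

/-!
# Squad PSS, row KEX
-/

set_option autoImplicit false

open scoped BigOperators TensorProduct

noncomputable section

namespace Pool.Agent.PSS.H41

open Pool.Agent.PFD.D2b (FrR)
open Pool.Agent.PSS

section

variable {R K A : Type} [CommRing R] [Field K] [Algebra R K] [Ring A] [Algebra R A]

/-- the base change of a form -/
def kf (f : A →ₗ[R] R) : K ⊗[R] A →ₗ[K] K :=
  (TensorProduct.AlgebraTensorModule.rid R K K).toLinearMap ∘ₗ f.baseChange K

theorem kf_tmul (f : A →ₗ[R] R) (s : K) (a : A) :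
    kf f (s ⊗ₜ[R] a) = s * algebraMap R K (f a) := by
  unfold kf
  rw [LinearMap.comp_apply, LinearMap.baseChange_tmul]
  change TensorProduct.AlgebraTensorModule.rid R K K (s ⊗ₜ[R] f a) = _
  rw [TensorProduct.AlgebraTensorModule.rid_tmul, Algebra.smul_def, mul_comm]

theorem kf_ir (f : A →ₗ[R] R) (a : A) :
    kf f ((Algebra.TensorProduct.includeRight : A →ₐ[R] K ⊗[R] A) a) = algebraMap R K (f a) := by
  rw [Algebra.TensorProduct.includeRight_apply, kf_tmul, one_mul]

theorem tmul_eq (s : K) (a : A) : (s ⊗ₜ[R] a : K ⊗[R] A) =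
    s • (Algebra.TensorProduct.includeRight : A →ₐ[R] K ⊗[R] A) a := by
  rw [Algebra.TensorProduct.includeRight_apply, TensorProduct.smul_tmul', smul_eq_mul, mul_one]

theorem smul_ir (r : R) (a : A) : algebraMap R K r •
    (Algebra.TensorProduct.includeRight : A →ₐ[R] K ⊗[R] A) a =
    (Algebra.TensorProduct.includeRight : A →ₐ[R] K ⊗[R] A) (r • a) := by
  rw [algebraMap_smul, map_smul]

end

theorem kex : KexStmt := by
  intro R K V A κ Ω _ _ _ _ _ _ _ _ _ _ _ _ _ _ α lam x y b c hrf hfr
  have hinj : Function.Injective (algebraMap R K) := IsFractionRing.injective R K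
  refine ⟨{
    i := Algebra.TensorProduct.includeRight
    inj := Algebra.TensorProduct.includeRight_injective hinj
    tow := fun r a => algebraMap_smul K r a
    rinj := hinj
    rf := hrf
    fr := hfr
    lamK := kf lam
    lk := kf_ir lam
    rfK := ⟨?_, ?_, ?_⟩
    cK := fun ω => kf (c ω)
    ck := fun ω => kf_ir (c ω)
    frK := ⟨?_, ?_, ?_⟩ }⟩
  · intro a b
    induction a using TensorProduct.induction_on with
    | zero => rw [zero_mul, mul_zero]
    | add a a' h h' => rw [add_mul, mul_add, map_add, map_add, h, h']
    | tmul s a =>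
      induction b using TensorProduct.induction_on with
      | zero => rw [zero_mul, mul_zero]
      | add a a' h h' => rw [add_mul, mul_add, map_add, map_add, h, h']
      | tmul t b =>
        rw [Algebra.TensorProduct.tmul_mul_tmul, Algebra.TensorProduct.tmul_mul_tmul, kf_tmul,
          kf_tmul, hrf.sym, mul_comm s t]
  · intro a
    induction a using TensorProduct.induction_on with
    | zero => simp
    | add a a' h h' =>
      conv_rhs => rw [← h, ← h']
      rw [← Finset.sum_add_distrib]
      refine Finset.sum_congr rfl fun k _ => ?_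
      rw [← Finset.sum_add_distrib]
      refine Finset.sum_congr rfl fun v _ => ?_
      rw [mul_add, map_add, add_smul]
    | tmul s a =>
      rw [tmul_eq]
      conv_rhs => rw [← hrf.e1 a, map_sum, Finset.smul_sum]
      refine Finset.sum_congr rfl fun k _ => ?_
      rw [map_sum, Finset.smul_sum]
      refine Finset.sum_congr rfl fun v _ => ?_
      rw [mul_smul_comm, map_smul, ia_apply, ia_apply, ← map_mul, ← map_mul, ← map_mul, kf_ir,
        smul_assoc, smul_ir]
  · intro a
    induction a using TensorProduct.induction_on with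
    | zero => simp
    | add a a' h h' =>
      conv_rhs => rw [← h, ← h']
      rw [← Finset.sum_add_distrib]
      refine Finset.sum_congr rfl fun k _ => ?_
      rw [← Finset.sum_add_distrib]
      refine Finset.sum_congr rfl fun v _ => ?_
      rw [add_mul, map_add, add_smul]
    | tmul s a =>
      rw [tmul_eq]
      conv_rhs => rw [← hrf.e2 a, map_sum, Finset.smul_sum]
      refine Finset.sum_congr rfl fun k _ => ?_
      rw [map_sum, Finset.smul_sum]
      refine Finset.sum_congr rfl fun v _ => ?_
      rw [smul_mul_assoc, map_smul, ia_apply, ia_apply, ← map_mul, ← map_mul, ← map_mul, kf_ir,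
        smul_assoc, smul_ir]
  · intro g t
    have h := hfr.1 g t
    change b (g • t) = α g.1 * (b t * α g.2⁻¹) at h
    change (Algebra.TensorProduct.includeRight : A →ₐ[R] K ⊗[R] A) (b (g • t)) =
      (Algebra.TensorProduct.includeRight : A →ₐ[R] K ⊗[R] A) (α g.1) *
      ((Algebra.TensorProduct.includeRight : A →ₐ[R] K ⊗[R] A) (b t) *
      (Algebra.TensorProduct.includeRight : A →ₐ[R] K ⊗[R] A) (α g.2⁻¹))
    rw [h, map_mul, map_mul]
  · intro g t n
    change kf (c (g • t)) ((Algebra.TensorProduct.includeRight : A →ₐ[R] K ⊗[R] A) (α g.1) *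
      (n * (Algebra.TensorProduct.includeRight : A →ₐ[R] K ⊗[R] A) (α g.2⁻¹))) = kf (c t) n
    induction n using TensorProduct.induction_on with
    | zero => simp
    | add a a' h h' => rw [add_mul, mul_add, map_add, map_add, h, h']
    | tmul s a =>
      rw [tmul_eq, smul_mul_assoc, mul_smul_comm, map_smul, map_smul,
        ← map_mul, ← map_mul, kf_ir, kf_ir]
      have h := hfr.2.1 g t a
      change c (g • t) (α g.1 * (a * α g.2⁻¹)) = c t a at h
      rw [h]
  · intro n
    induction n using TensorProduct.induction_on with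
    | zero => simp
    | add a a' h h' =>
      conv_rhs => rw [← h, ← h']
      rw [← Finset.sum_add_distrib]
      refine Finset.sum_congr rfl fun k _ => ?_
      rw [map_add, add_smul]
    | tmul s a =>
      rw [tmul_eq]
      conv_rhs => rw [← hfr.2.2 a, map_sum, Finset.smul_sum]
      refine Finset.sum_congr rfl fun k _ => ?_
      rw [map_smul, kf_ir, smul_assoc, smul_ir]

end Pool.Agent.PSS.H41
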