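import Pool.Agent.PSS.StmtsS4

/-!
# Squad PSS, row NDF
-/

set_option autoImplicit false

open scoped BigOperators

noncomputable section

namespace Pool.Agent.PSS.H41

open Pool.Agent.PFC (tw IsTv)
open Pool.Agent.PFD.D2b (FrR)

section

variable {R R₀ V A A' : Type} [CommRing R] [CommRing R₀] [CommGroup V] [Ring A] [Algebra R₀ A]
  [Ring A'] [Algebra R A'] {p : R} {κ : R →+* R₀} {α : V →* A} {α' : V →* A'}

theorem q_smul (D : Df p κ α α') (r : R) (x : A') : D.q (r • x) = κ r • D.q x := by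
  rw [Algebra.smul_def, map_mul, D.sc, ← Algebra.smul_def]

theorem kp (hκ : Red p κ) (s : R) : κ (p * s) = 0 := (hκ.ker _).2 ⟨s, rfl⟩

theorem wd (D : Df p κ α α') (hκ : Red p κ) (c : A' →ₗ[R] R) {x y : A'} (h : D.q x = D.q y) :
    κ (c x) = κ (c y) := by
  obtain ⟨z, hz⟩ := D.ker (x - y) (by rw [map_sub, h, sub_self])
  rw [← sub_eq_zero, ← map_sub, ← map_sub, hz, map_smul, smul_eq_mul, kp hκ]

/-- the reduction of a form -/
def c0 (D : Df p κ α α') (hκ : Red p κ) (c : A' →ₗ[R] R) : A →ₗ[R₀] R₀ where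
  toFun x := κ (c (Function.surjInv D.surj x))
  map_add' := by
    intro x y
    have hs : ∀ z, D.q (Function.surjInv D.surj z) = z := Function.surjInv_eq D.surj
    rw [← map_add, ← map_add]
    exact wd D hκ c (by rw [map_add, hs, hs, hs])
  map_smul' := by
    intro r x
    have hs : ∀ z, D.q (Function.surjInv D.surj z) = z := Function.surjInv_eq D.surj
    obtain ⟨s, rfl⟩ := hκ.surj r
    rw [RingHom.id_apply, smul_eq_mul, ← map_mul, ← smul_eq_mul s, ← map_smul]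
    exact wd D hκ c (by rw [q_smul, hs, hs])

theorem c0_q (D : Df p κ α α') (hκ : Red p κ) (c : A' →ₗ[R] R) (x : A') :
    c0 D hκ c (D.q x) = κ (c x) := wd D hκ c (Function.surjInv_eq _ _)

theorem q_bw (D : Df p κ α α') (g : V × V) (x : A') :
    D.q (bw R α' g x) = bw R₀ α g (D.q x) := by
  change D.q (α' g.1 * (x * α' g.2⁻¹)) = α g.1 * (D.q x * α g.2⁻¹)
  rw [map_mul, map_mul, D.qw, D.qw]

theorem q_fx (D : Df p κ α α') {P : Subgroup (V × V)} {a : A'} (ha : a ∈ FxR (bw R α') P) :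
    D.q a ∈ FxR (bw R₀ α) P := by
  intro h hh
  rw [← q_bw, ha h hh]

theorem fr0 (D : Df p κ α α') (hκ : Red p κ) {Ω : Type} [Fintype Ω] [MulAction (V × V) Ω]
    {b : Ω → A'} {c : Ω → (A' →ₗ[R] R)} (hf : FrR (bw R α') b c) :
    FrR (bw R₀ α) (fun ω => D.q (b ω)) (fun ω => c0 D hκ (c ω)) := by
  refine ⟨?_, ?_, ?_⟩
  · intro g t
    dsimp only
    rw [hf.1, q_bw]
  · intro g t n
    obtain ⟨x, rfl⟩ := D.surj n
    dsimp only
    rw [← q_bw, c0_q, c0_q, hf.2.1]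
  · intro n
    obtain ⟨x, rfl⟩ := D.surj n
    conv_rhs => rw [← hf.2.2 x, map_sum]
    refine Finset.sum_congr rfl fun ω _ => ?_
    rw [c0_q, q_smul]

end

theorem ndf (hN : NfrStmt) : NdfStmt := by
  intro ℓ _ R R₀ V A A' B B' _ _ _ _ _ _ _ _ _ _ _ _ p κ α α' W N N' D hℓ hV hκ
  classical
  have : Finite (MulAut W) := Finite.of_injective (fun f => (f : W → W)) DFunLike.coe_injective
  have : Fintype (MulAut W) := Fintype.ofFinite _
  obtain ⟨Ω, _, _, b, c, hf⟩ := D.per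
  have : Fintype (Σ ε : MulAut W, Fp Ω (twW W ε)) := Fintype.ofFinite _
  have hℓ0 : (ℓ : R₀) = 0 := by
    rw [← map_natCast κ, hℓ, map_zero]
  obtain ⟨c', hc1, hc2, hfr⟩ := hN ℓ R V A' B' Ω α' b c W N' hℓ hV hf
  obtain ⟨d', hd1, hd2, hfr0⟩ := hN ℓ R₀ V A B Ω α (fun ω => D.q (b ω))
    (fun ω => c0 D hκ (c ω)) W N hℓ0 hV (fr0 D hκ hf)
  -- the map
  let Q : B' → B := fun x => ∑ t : (Σ ε : MulAut W, Fp Ω (twW W ε)),
    κ (c' t x) • N.β t.1 (D.q (b t.2.1))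
  have hQ : ∀ x, Q x = ∑ t : (Σ ε : MulAut W, Fp Ω (twW W ε)),
    κ (c' t x) • N.β t.1 (D.q (b t.2.1)) := fun _ => rfl
  have hcd : ∀ t ε, ∀ a ∈ FxR (bw R α') (twW W ε),
      κ (c' t (N'.β ε a)) = d' t (N.β ε (D.q a)) := by
    intro t ε a ha
    by_cases h : ε = t.1
    · subst h
      rw [hc1 t a ha, hd1 t _ (q_fx D ha), c0_q]
    · rw [hc2 t ε h a ha, hd2 t ε h _ (q_fx D ha), map_zero]
  have hQb : ∀ ε, ∀ a ∈ FxR (bw R α') (twW W ε), Q (N'.β ε a) = N.β ε (D.q a) := by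
    intro ε a ha
    rw [hQ]
    refine Eq.trans ?_ (hfr0.2.2 (N.β ε (D.q a)))
    exact Finset.sum_congr rfl fun t _ => by rw [hcd t ε a ha]
  have hQadd : ∀ x y, Q (x + y) = Q x + Q y := by
    intro x y
    rw [hQ, hQ, hQ, ← Finset.sum_add_distrib]
    exact Finset.sum_congr rfl fun t _ => by rw [map_add, map_add, add_smul]
  have hQ0 : Q 0 = 0 := by
    rw [hQ]
    exact Finset.sum_eq_zero fun t _ => by rw [map_zero, map_zero, zero_smul]
  let Qa : B' →+ B := ⟨⟨Q, hQ0⟩, hQadd⟩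
  have hQa : ∀ x, Qa x = Q x := fun _ => rfl
  have hspn : ∀ x : B', ∃ f : MulAut W → A', (∀ ε, f ε ∈ FxR (bw R α') (twW W ε)) ∧
      x = ∑ ε, N'.β ε (f ε) := by
    intro x
    obtain ⟨f, h1, h2⟩ := N'.spn x
    refine ⟨f, h1, ?_⟩
    rw [← h2, finsum_eq_sum_of_fintype]
  have hQmul : ∀ x y, Q (x * y) = Q x * Q y := by
    intro x y
    obtain ⟨f, hf1, rfl⟩ := hspn x
    obtain ⟨g, hg1, rfl⟩ := hspn y
    rw [← hQa, ← hQa, ← hQa, Finset.sum_mul_sum, map_sum, map_sum, map_sum, Finset.sum_mul_sum]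
    refine Finset.sum_congr rfl fun ε _ => ?_
    rw [map_sum]
    refine Finset.sum_congr rfl fun δ _ => ?_
    rw [← N'.mul ε δ _ (hf1 ε) _ (hg1 δ), hQa, hQa, hQa,
      hQb _ _ (Fx_mul α' W ε δ (hf1 ε) (hg1 δ)), hQb _ _ (hf1 ε), hQb _ _ (hg1 δ), map_mul,
      N.mul ε δ _ (q_fx D (hf1 ε)) _ (q_fx D (hg1 δ))]
  have hQ1 : Q 1 = 1 := by
    rw [← N'.one, hQb 1 1 (one_mem_tw α' W), map_one, N.one]
  have hQs : ∀ (r : R) x, Q (r • x) = κ r • Q x := by
    intro r x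
    rw [hQ, hQ, Finset.smul_sum]
    exact Finset.sum_congr rfl fun t _ => by rw [map_smul, smul_eq_mul, map_mul, mul_smul]
  have hbfx : ∀ t : (Σ ε : MulAut W, Fp Ω (twW W ε)),
      b t.2.1 ∈ FxR (bw R α') (twW W t.1) := by
    intro t h hh
    rw [← hf.1]
    have h1 : h • t.2.1 = t.2.1 := t.2.2 hh
    rw [h1]
  have hck : ∀ t x, κ (c' t x) = d' t (Q x) := by
    intro t x
    obtain ⟨f, hf1, rfl⟩ := hspn x
    rw [map_sum, map_sum, ← hQa, map_sum, map_sum]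
    refine Finset.sum_congr rfl fun ε _ => ?_
    rw [hQa, hQb _ _ (hf1 ε), hcd t ε _ (hf1 ε)]
  refine ⟨{
    q := { toFun := Q, map_one' := hQ1, map_mul' := hQmul, map_zero' := hQ0, map_add' := hQadd }
    sc := ?_
    surj := ?_
    ker := ?_
    qw := ?_
    per := ⟨(Σ ε : MulAut W, Fp Ω (twW W ε)), inferInstance, inferInstance, _, c', hfr⟩ },
    hQb⟩
  · intro r
    change Q (algebraMap R B' r) = _
    rw [Algebra.algebraMap_eq_smul_one, hQs, hQ1, ← Algebra.algebraMap_eq_smul_one]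
  · intro y
    choose r hr using fun t => hκ.surj (d' t y)
    refine ⟨∑ t : (Σ ε : MulAut W, Fp Ω (twW W ε)), r t • N'.β t.1 (b t.2.1), ?_⟩
    change Q _ = y
    rw [← hQa, map_sum]
    refine Eq.trans ?_ (hfr0.2.2 y)
    refine Finset.sum_congr rfl fun t _ => ?_
    rw [hQa, hQs, hr, hQb _ _ (hbfx t)]
  · intro x hx
    change Q x = 0 at hx
    have h1 : ∀ t, ∃ s, c' t x = p * s := by
      intro t
      apply (hκ.ker _).1
      rw [hck, hx, map_zero]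
    choose s hs using h1
    refine ⟨∑ t : (Σ ε : MulAut W, Fp Ω (twW W ε)), s t • N'.β t.1 (b t.2.1), ?_⟩
    conv_lhs => rw [← hfr.2.2 x]
    rw [Finset.smul_sum]
    refine Finset.sum_congr rfl fun t _ => ?_
    rw [hs, mul_smul]
  · intro v
    change Q (N'.β 1 (α' v)) = N.β 1 (α v)
    rw [hQb _ _ (al_mem_tw v W), D.qw]

end Pool.Agent.PSS.H41
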