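import Pool.Agent.PSS.StmtsS6
import Pool.Agent.Helper20_PP.Nls

/-!
# Squad PSS, rows NKW and SGW
-/

set_option autoImplicit false

open scoped BigOperators

noncomputable section

namespace Pool.Agent.PSS.H41

open Pool.Agent.Helper51_AWC Pool.Agent.Helper79_WRA Pool.Agent.PP Pool.Agent.PP.KF
open Pool.Agent.PP.T8 (pw)

section

variable {F H : Type} [Field F] [Group H] [Finite H]

theorem ev_br {ℓ : ℕ} (hF : GoodF ℓ F) (R : Subgroup H) (hN : R.Normal) (hR : IsPGroup ℓ R)
    (a : H → F) (ha : ∀ r ∈ R, ∀ x, a (r * x * r⁻¹) = a x) {n : ℕ}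
    (ρ : H →* Matrix (Fin n) (Fin n) F) (hρ : IsIrr ρ) : ev ρ a = ev ρ (br R a) := by
  have hch := hF.char
  have htr := H20.nls_triv hF.prime hF.char R hN hR ρ hρ
  have hfin := Fintype.ofFinite H
  classical
  unfold ev
  rw [finsum_eq_sum_of_fintype, finsum_eq_sum_of_fintype]
  have hV : ∀ v : Matrix (Fin n) (Fin n) F, ℓ • v = 0 := by
    intro v
    ext i j
    rw [Matrix.smul_apply, nsmul_eq_mul, CharP.cast_eq_zero, zero_mul, Matrix.zero_apply]
  rw [H20.conj_sum hF.prime hV R hR (fun t => a t • ρ t) (fun r hr t => by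
    show a (r * t * r⁻¹) • ρ (r * t * r⁻¹) = a t • ρ t
    rw [ha r hr, map_mul, map_mul, htr r hr, htr r⁻¹ (R.inv_mem hr), one_mul, mul_one])]
  apply Finset.sum_congr rfl
  intro t _
  by_cases ht : t ∈ Subgroup.centralizer (R : Set H)
  · simp only [br, if_pos ht]
  · simp only [br, if_neg ht, zero_smul]

theorem toMA_pw (a : H → F) (k : ℕ) : H20.toMA (pw a k) = H20.toMA a ^ k := by
  induction k with
  | zero =>
    rw [pow_zero]
    apply MonoidAlgebra.ext
    apply Finsupp.ext
    intro x
    rw [H20.toMA_coeff, MonoidAlgebra.one_def, MonoidAlgebra.coeff_single]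
    change (open Classical in if x = 1 then (1 : F) else 0) = _
    by_cases hx : x = 1
    · subst hx
      rw [if_pos rfl, Finsupp.single_eq_same]
    · rw [if_neg hx, Finsupp.single_eq_of_ne hx]
  | succ k ih =>
    change H20.toMA (mulF a (pw a k)) = _
    rw [H20.toMA_mulF, ih, pow_succ']

theorem nil_of_br {ℓ : ℕ} (hF : GoodF ℓ F) (R : Subgroup H) (hN : R.Normal) (hR : IsPGroup ℓ R)
    (a : H → F) (ha : ∀ r ∈ R, ∀ x, a (r * x * r⁻¹) = a x) (hb : br R a = 0) :
    ∃ k : ℕ, H20.toMA a ^ (k + 1) = 0 := by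
  obtain ⟨k, hk⟩ := H20.ibn ℓ F hF H a (fun n ρ hρ => by
    rw [ev_br hF R hN hR a ha ρ hρ, hb]
    unfold ev
    simp)
  refine ⟨k, ?_⟩
  have h1 := congrArg H20.toMA hk
  rw [H20.mulF_iterate, H20.toMA_zero, ← pow_succ] at h1
  exact h1

end

theorem nkw : NkwStmt := by
  intro ℓ _ F _ hF H _ _ R hN hR a ha hb
  obtain ⟨k, hk⟩ := nil_of_br hF R hN hR a ha hb
  refine ⟨k + 1, by omega, H20.toMA_injective ?_⟩
  rw [toMA_pw, hk, H20.toMA_zero]

theorem sgw : SgwStmt := by
  intro ℓ _ F _ hF H _ _ R hN hR f hf x hx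
  have hcl : IsCl (br R f) := by
    intro u y
    have hy : y ∈ Subgroup.normalizer (R : Set H) := by
      rw [Subgroup.mem_normalizer_iff]
      intro r
      constructor
      · intro hr
        exact hN.conj_mem r hr y
      · intro hr
        have h := hN.conj_mem _ hr y⁻¹
        have e : y⁻¹ * (y * r * y⁻¹) * y⁻¹⁻¹ = r := by group
        rwa [e] at h
    by_cases hu : u ∈ Subgroup.centralizer (R : Set H)
    · have hu' := (H20.cent_conj_iff (x := u) hy).2 hu
      simp only [br, if_pos hu, if_pos hu']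
      exact hf.1 u y
    · have hu' := fun h => hu ((H20.cent_conj_iff (x := u) hy).1 h)
      simp only [br, if_neg hu, if_neg hu']
  have hmul : mulF (br R f) (br R f) = br R f := by
    have h := (H20.brm ℓ F hF H R ⊤ hR le_top (by
      intro y _
      rw [Subgroup.mem_normalizer_iff]
      intro r
      constructor
      · intro hr
        exact hN.conj_mem r hr y
      · intro hr
        have h := hN.conj_mem _ hr y⁻¹
        have e : y⁻¹ * (y * r * y⁻¹) * y⁻¹⁻¹ = r := by group
        rwa [e] at h)).1 f f hf.1 hf.1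
    rw [← h, hf.2]
  have hbb : br R (br R f) = br R f := by
    funext u
    by_cases hu : u ∈ Subgroup.centralizer (R : Set H)
    · simp only [br, if_pos hu]
    · simp only [br, if_neg hu]
  have hd : br R (f - br R f) = 0 := by
    funext u
    by_cases hu : u ∈ Subgroup.centralizer (R : Set H)
    · simp only [br, if_pos hu, Pi.sub_apply, sub_self, Pi.zero_apply]
    · simp only [br, if_neg hu, Pi.zero_apply]
  have hdc : IsCl (f - br R f) := H20.isCl_sub hf.1 hcl
  obtain ⟨k, hk⟩ := nil_of_br hF R hN hR (f - br R f) (fun r _ x => hdc x r) hd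
  rw [H20.toMA_sub] at hk
  have h1 : H20.toMA f * H20.toMA f = H20.toMA f := by rw [← H20.toMA_mulF, hf.2]
  have h2 : H20.toMA (br R f) * H20.toMA (br R f) = H20.toMA (br R f) := by
    rw [← H20.toMA_mulF, hmul]
  have h3 : H20.toMA f * H20.toMA (br R f) = H20.toMA (br R f) * H20.toMA f := by
    rw [← H20.toMA_mulF, ← H20.toMA_mulF, H20.mulF_comm_of_cl hf.1]
  generalize hp : H20.toMA f = p at hk h1 h2 h3
  generalize hq : H20.toMA (br R f) = q at hk h2 h3
  have h4 : (p - q) * (p - q) * (p - q) = p - q := by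
    have e1 : (p - q) * (p - q) = p + q - 2 * (p * q) := by
      have : (p - q) * (p - q) = p * p - p * q - q * p + q * q := by noncomm_ring
      rw [this, h1, h2, ← h3]
      noncomm_ring
    have e2 : p * q * p = p * q := by rw [mul_assoc, ← h3, ← mul_assoc, h1]
    have e3 : p * q * q = p * q := by rw [mul_assoc, h2]
    rw [e1]
    have e4 : (p + q - 2 * (p * q)) * (p - q) =
        p * p - p * q + q * p - q * q - 2 * (p * q * p) + 2 * (p * q * q) := by noncomm_ring
    rw [e4, h1, h2, e2, e3, ← h3]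
    noncomm_ring
  have h5 : ∀ m : ℕ, (p - q) ^ (2 * m + 1) = p - q := by
    intro m
    induction m with
    | zero => simp
    | succ m ih =>
      rw [show 2 * (m + 1) + 1 = (2 * m + 1) + 2 by ring, pow_add, ih, pow_two, ← mul_assoc, h4]
  have h6 : p - q = 0 := by
    rw [← h5 k, show 2 * k + 1 = (k + 1) + k by ring, pow_add, hk, zero_mul]
  have h7 : H20.toMA f = H20.toMA (br R f) := by rw [hp, hq]; exact sub_eq_zero.1 h6
  have h8 := congrFun (H20.toMA_injective h7) x
  rw [h8]
  simp only [br, if_neg hx]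

end Pool.Agent.PSS.H41
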