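import Pool.Agent.PSS.StmtsS2

/-!
# Squad PSS, rows SVI and SVK
-/

set_option autoImplicit false

open scoped BigOperators

noncomputable section

namespace Pool.Agent.PSS.S2.H41

open Pool.Agent.PFC (tw IsTv)
open Pool.Agent.PFD.D2b (FrR)

theorem svi (hT : TprStmt) : SviStmt := by
  intro F V A K _ _ _ _ _ _ α z lam x y χ N₁ N₂ a hrf h1 h2 ha u
  have hg : ∀ b v, (N₁ - N₂) (b * α v) = (N₁ - N₂) b * α v := by
    intro b v
    have e1 := (cg_zero _ _).1 (h1.lin b v)
    have e2 := (cg_zero _ _).1 (h2.lin b v)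
    rw [LinearMap.sub_apply, LinearMap.sub_apply, e1, e2, sub_mul]
    abel
  set g := N₁ - N₂ with hgd
  let P : A →ₗ[F] A := (LinearMap.mulLeft F a).comp g
  let Q : A →ₗ[F] A := (LinearMap.mulRight F (1 - α z⁻¹)).comp (LinearMap.mulLeft F (α u))
  have hP : ∀ b, P b = a * g b := fun b => rfl
  have hQ : ∀ b, Q b = α u * b * (1 - α z⁻¹) := fun b => rfl
  have hPr : RLq 0 α P := by
    intro b v
    rw [cg_zero, hP, hP, hg, mul_assoc]
  have hQr : RLq 0 α Q := by
    intro b v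
    rw [cg_zero, hQ, hQ]
    have e : α v * (1 - α z⁻¹) = (1 - α z⁻¹) * α v := by
      rw [mul_sub, sub_mul, mul_one, one_mul, ← map_mul, ← map_mul, mul_comm v z⁻¹]
    calc α u * (b * α v) * (1 - α z⁻¹) = α u * b * (α v * (1 - α z⁻¹)) := by
          simp only [mul_assoc]
      _ = α u * b * (1 - α z⁻¹) * α v := by rw [e]; simp only [mul_assoc]
  have hpq := (cg_zero _ _).1 (hT F V A K 0 α lam x y P Q hrf hPr hQr)
  unfold t1 at hpq
  have hgr : ∀ b, g (b * (1 - α z⁻¹)) = g b * (1 - α z⁻¹) := by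
    intro b
    rw [mul_sub, mul_sub, map_sub, hg, mul_one, mul_one]
  have key : ∀ k, lam ((g (α u * x k) - α u * g (x k)) * ((1 - α z⁻¹) * y k) * a) =
      lam (y k * P (Q (x k))) - lam (y k * Q (P (x k))) := by
    intro k
    rw [hP, hQ, hQ, hP, hgr]
    rw [← map_sub, ← mul_sub]
    have e1 : α u * (a * g (x k)) * (1 - α z⁻¹) = a * (α u * g (x k) * (1 - α z⁻¹)) := by
      rw [← mul_assoc (α u) a, ha u]
      simp only [mul_assoc]
    rw [e1, ← mul_sub, ← sub_mul]
    generalize g (α u * x k) - α u * g (x k) = D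
    rw [show D * ((1 - α z⁻¹) * y k) * a = (D * (1 - α z⁻¹)) * (y k * a) by
      simp only [mul_assoc], hrf.sym, mul_assoc]
  have hd : lam (Gz α z x y N₁ (α u) * a) - lam (Gz α z x y N₂ (α u) * a) = 0 := by
    rw [← map_sub, ← sub_mul, gz_apply, gz_apply, ← Finset.sum_sub_distrib, Finset.sum_mul,
      map_sum]
    have e2 : ∀ k, lam (((N₁ (α u * x k) - α u * N₁ (x k)) * ((1 - α z⁻¹) * y k) -
        (N₂ (α u * x k) - α u * N₂ (x k)) * ((1 - α z⁻¹) * y k)) * a) =
        lam (y k * P (Q (x k))) - lam (y k * Q (P (x k))) := by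
      intro k
      rw [← key k]
      congr 2
      rw [hgd, LinearMap.sub_apply, LinearMap.sub_apply, ← sub_mul, mul_sub]
      congr 1
      abel
    rw [Finset.sum_congr rfl fun k _ => e2 k, Finset.sum_sub_distrib]
    exact sub_eq_zero.2 hpq
  exact sub_eq_zero.1 hd

theorem svk (hW : WtrStmt) : SvkStmt := by
  intro F V E A K Ω _ _ _ _ _ _ _ _ _ _ φ α z lam x y b c h χ H e a hrf hfr hh hχ he hH ha u
  have hχ1 : χ 1 = 0 := by
    have := hχ 1 1
    rw [mul_one] at this
    exact left_eq_add.1 this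
  have hN : ∀ b', Nh H b c (α u * b') - α u * Nh H b c b' =
      ∑ ω, (c ω b' * χ (φ (e ω)⁻¹ u)) • (α u * b ω) := by
    intro b'
    rw [nh_apply, nh_apply, Finset.mul_sum]
    have e1 : ∑ ω, (c ω (α u * b') * H ω) • b ω =
        ∑ ω, (c ω b' * H ((u, (1 : V)) • ω)) • (α u * b ω) := by
      rw [← Equiv.sum_comp (MulAction.toPerm ((u, (1 : V)) : V × V))]
      refine Finset.sum_congr rfl fun ω _ => ?_
      change (c ((u, (1 : V)) • ω) (α u * b') * H ((u, (1 : V)) • ω)) •
        b ((u, (1 : V)) • ω) = _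
      have h1 := hfr.1 (u, 1) ω
      change b ((u, (1 : V)) • ω) = α u * (b ω * α 1⁻¹) at h1
      rw [inv_one, map_one, mul_one] at h1
      have h2 := hfr.2.1 (u, 1) ω b'
      change c ((u, (1 : V)) • ω) (α u * (b' * α 1⁻¹)) = c ω b' at h2
      rw [inv_one, map_one, mul_one] at h2
      rw [h1, h2]
    rw [e1, ← Finset.sum_sub_distrib]
    refine Finset.sum_congr rfl fun ω _ => ?_
    rw [mul_smul_comm, ← sub_smul, ← mul_sub, hH, hχ1]
    congr 2
    ring
  let f : A →ₗ[F] A := (LinearMap.mulRight F (1 - α z⁻¹)).comp (LinearMap.mulLeft F (a * α u))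
  have hf : ∀ b', f b' = a * α u * b' * (1 - α z⁻¹) := fun b' => rfl
  have hw := hW F V A K Ω α lam x y b c h (fun ω => χ (φ (e ω)⁻¹ u)) f hrf hfr hh
    (fun v ω => by rw [he]) (by
      intro b' v
      rw [hf, hf]
      have e : α v * (1 - α z⁻¹) = (1 - α z⁻¹) * α v := by
        rw [mul_sub, sub_mul, mul_one, one_mul, ← map_mul, ← map_mul, mul_comm v z⁻¹]
      calc a * α u * (b' * α v) * (1 - α z⁻¹) = a * α u * b' * (α v * (1 - α z⁻¹)) := by
            simp only [mul_assoc]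
        _ = a * α u * b' * (1 - α z⁻¹) * α v := by rw [e]; simp only [mul_assoc])
  rw [gz_apply, Finset.sum_mul, map_sum]
  refine Eq.trans ?_ hw
  have e3 : ∀ k, lam ((Nh H b c (α u * x k) - α u * Nh H b c (x k)) *
      ((1 - α z⁻¹) * y k) * a) =
      ∑ ω, χ (φ (e ω)⁻¹ u) * (c ω (x k) * lam (y k * f (b ω))) := by
    intro k
    rw [hN, Finset.sum_mul, Finset.sum_mul, map_sum]
    refine Finset.sum_congr rfl fun ω _ => ?_
    rw [smul_mul_assoc, smul_mul_assoc, map_smul, smul_eq_mul, hf]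
    have e4 : lam (α u * b ω * ((1 - α z⁻¹) * y k) * a) =
        lam (y k * (a * α u * b ω * (1 - α z⁻¹))) := by
      rw [show α u * b ω * ((1 - α z⁻¹) * y k) * a =
        (α u * b ω * (1 - α z⁻¹)) * (y k * a) by simp only [mul_assoc], hrf.sym]
      congr 1
      simp only [mul_assoc]
    rw [e4]
    ring
  rw [Finset.sum_congr rfl fun k _ => e3 k, Finset.sum_comm]
  refine Finset.sum_congr rfl fun ω _ => ?_
  rw [Finset.mul_sum]

end Pool.Agent.PSS.S2.H41
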